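import Pool.Agent.FCB.Core

/-!
# FCB, target CAP: capturing
-/

set_option autoImplicit false

namespace Pool.Agent.FCB

open Set

namespace CAP_

lemma fin_aux {Ω : Type} [LinearOrder Ω] {e : Ω → Ω → ℕ} {t : Ω → ℕ → ℕ} (he : EData e)
    (ht : TData t) (δ₀ δ : Ω) :
    {ζ | δ₀ < ζ ∧ ζ < δ ∧ t δ (e δ ζ) < e δ δ₀}.Finite := by
  obtain ⟨i₀, hi₀⟩ := ht.2.1 δ (e δ δ₀)
  refine (he.1 δ i₀).subset ?_
  rintro ζ ⟨-, h2, h3⟩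
  refine ⟨h2, ?_⟩
  by_contra hcon
  have h4 : t δ i₀ ≤ t δ (e δ ζ) := ht.1 δ (not_le.1 hcon).le
  omega

end CAP_

theorem p_CAP : T_RFL → T_PSI → T_FIX → T_CAP := by
  intro h1 h2 h3 Ω _ hΩ e t f r hD A
  obtain ⟨he, ht, hf, hr⟩ := hD
  obtain ⟨g₁, hg₁⟩ := h1 Ω hΩ e t f hf A
  obtain ⟨g₂, hg₂⟩ := h2 Ω hΩ e t f he ht hf A
  refine ⟨fun α => max (g₁ α) (g₂ α), ?_⟩
  intro δ hδ β hβ hgood γ hγ
  have hδ₁ : ∀ α, α < δ → g₁ α < δ := fun α hα => lt_of_le_of_lt (le_max_left _ _) (hδ α hα)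
  have hδ₂ : ∀ α, α < δ → g₂ α < δ := fun α hα => lt_of_le_of_lt (le_max_right _ _) (hδ α hα)
  obtain ⟨δ₀, hγ₀, hβ₀, hδ₀, hrfl⟩ := hg₁ δ hδ₁ γ β hγ hβ
  have hfin := CAP_.fin_aux he ht δ₀ δ
  have hQ1 : ∀ ζ ∈ insert δ₀ hfin.toFinset, δ₀ ≤ ζ := by
    intro ζ hζ
    rcases Finset.mem_insert.1 hζ with h | h
    · exact h.ge
    · exact ((hfin.mem_toFinset).1 h).1.le
  have hQ2 : ∀ ζ ∈ insert δ₀ hfin.toFinset, ζ < δ := by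
    intro ζ hζ
    rcases Finset.mem_insert.1 hζ with h | h
    · rw [h]
      exact hδ₀
    · exact ((hfin.mem_toFinset).1 h).2.1
  obtain ⟨x, hx, hx'⟩ := hg₂ δ hδ₂ γ β δ₀ (insert δ₀ hfin.toFinset) hrfl hgood hγ₀ hβ₀ hδ₀
    hQ1 hQ2
  exact h3 Ω e t f r ⟨he, ht, hf, hr⟩ A γ β δ₀ δ (insert δ₀ hfin.toFinset) x hγ₀ hβ₀ hδ₀
    (Finset.mem_insert_self _ _)
    (fun ζ ha hb hc => Finset.mem_insert_of_mem ((hfin.mem_toFinset).2 ⟨ha, hb, hc⟩)) hx hx'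

end Pool.Agent.FCB
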