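import Pool.Agent.FCB.Core

/-! FCB-CLP: basic neighbourhoods are clopen. -/

set_option autoImplicit false

namespace Pool.Agent.FCB

open Set

theorem p_CLP : T_CLP := by
  intro Ω _ r s γ δ m hγ hr hcoh ζ k
  rcases lt_trichotomy ζ δ with h | h | h
  · -- `ζ < δ`
    have hγδ : γ < δ := by
      rcases hγ with h1 | h1
      · exact h1
      · exact absurd h (h1 ζ)
    by_cases hmin : ∀ η, ¬ η < ζ
    · exact Or.inl hmin
    push Not at hmin
    obtain ⟨η, hη⟩ := hmin
    rcases le_or_gt ζ γ with h1 | h1
    · refine Or.inr ⟨η, hη, fun ξ j h2 h3 _ => ?_⟩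
      have hξ : ξ < δ := h3.trans h
      constructor
      · rintro (h5 | h5)
        · rw [Prod.mk.injEq] at h5
          exact absurd h5.1 hξ.ne
        · exact absurd (h5.1.trans h3) (not_lt.2 h1)
      · rintro (h5 | h5)
        · rw [Prod.mk.injEq] at h5
          exact absurd h5.1 h.ne
        · exact absurd h5.1 (not_lt.2 h1)
    · rcases hcoh ζ h k with h2 | ⟨γ1, h2, h3⟩
      · exact Or.inl h2
      · refine Or.inr ⟨max γ γ1, max_lt h1 h2, fun ξ j h4 h5 h6 => ?_⟩
        have h7 : s ξ j = s ζ k := h3 ξ j ((le_max_right _ _).trans_lt h4) h5 h6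
        have h8 : γ < ξ := (le_max_left _ _).trans_lt h4
        have hξ : ξ < δ := h5.trans h
        constructor
        · rintro (h9 | h9)
          · rw [Prod.mk.injEq] at h9
            exact absurd h9.1 hξ.ne
          · exact Or.inr ⟨h1, h, by rw [← h7]; exact h9.2.2⟩
        · rintro (h9 | h9)
          · rw [Prod.mk.injEq] at h9
            exact absurd h9.1 h.ne
          · exact Or.inr ⟨h8, hξ, by
              have h10 : s ζ k = m := h9.2.2
              show s ξ j = m
              rw [h7, h10]⟩
  · -- `ζ = δ`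
    subst h
    rcases hγ with h1 | h1
    · refine Or.inr ⟨γ, h1, fun ξ j h2 h3 h4 => ?_⟩
      rw [hr] at h4
      constructor
      · rintro (h5 | h5)
        · rw [Prod.mk.injEq] at h5
          exact absurd h5.1 h3.ne
        · have h6 : s ξ j = m := h5.2.2
          left
          rw [← h4, h6]
      · rintro (h5 | h5)
        · rw [Prod.mk.injEq] at h5
          exact Or.inr ⟨h2, h3, by
            show s ξ j = m
            rw [h4, h5.2]⟩
        · exact absurd h5.2.1 (lt_irrefl _)
    · exact Or.inl h1
  · -- `δ < ζ`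
    refine Or.inr ⟨δ, h, fun ξ j h2 h3 _ => ?_⟩
    constructor
    · rintro (h5 | h5)
      · rw [Prod.mk.injEq] at h5
        exact absurd h5.1 h2.ne'
      · exact absurd h5.2.1 (not_lt.2 h2.le)
    · rintro (h5 | h5)
      · rw [Prod.mk.injEq] at h5
        exact absurd h5.1 h.ne'
      · exact absurd h5.2.1 (not_lt.2 h.le)

end Pool.Agent.FCB
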