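import Pool.Agent.FCB.Core

/-! Target DWK of project FCB: the Dowker criterion. -/

set_option autoImplicit false

namespace Pool.Agent.FCB

open Set

theorem p_DWK : T_DWK := by
  intro X _ hX hmeet D hD hDu U hU hDU
  have hc : ∀ n, (U n)ᶜ.Countable := by
    intro n
    by_contra hcon
    obtain ⟨x, hx1, hx2⟩ := hmeet (D n) (U n)ᶜ (hD n) (hU n).isClosed_compl (hDu n) hcon
    exact hx2 (hDU n hx1)
  by_contra hcon
  rw [Set.not_nonempty_iff_eq_empty] at hcon
  have h1 : (univ : Set X) ⊆ ⋃ n, (U n)ᶜ := by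
    rw [← Set.compl_iInter, hcon, Set.compl_empty]
  have h2 : (univ : Set X).Countable := (Set.countable_iUnion hc).mono h1
  rw [Set.countable_univ_iff] at h2
  exact (not_countable_iff.2 hX) h2

end Pool.Agent.FCB
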