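import Pool.Agent.FCB.Core

/-!
# FCB-EXE: coherent finite-to-one functions
-/

set_option autoImplicit false

namespace Pool.Agent.FCB

open Set

namespace EXE_

variable {Ω : Type} [LinearOrder Ω]

/-- the conditions in the recursion -/
def P (δ : Ω) (r : Ω → Ω → ℕ) (s : Ω → ℕ) : Prop :=
  (∀ n : ℕ, {ξ | ξ < δ ∧ s ξ ≤ n}.Finite) ∧
  (∀ δ', δ' < δ → {ξ | ξ < δ' ∧ r δ' ξ ≠ s ξ}.Finite)

lemma step (h : OM Ω) (δ : Ω) (r : Ω → Ω → ℕ) (ih : ∀ δ', δ' < δ → P δ' r (r δ')) :
    ∃ s, P δ r s := by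
  classical
  rcases (Iio δ).eq_empty_or_nonempty with he | hne
  · refine ⟨fun _ => 0, fun n => ?_, fun δ' hδ' => ?_⟩
    · have : {ξ | ξ < δ ∧ 0 ≤ n} = (∅ : Set Ω) := by
        rw [Set.eq_empty_iff_forall_notMem]
        intro x hx
        have h1 : x ∈ Iio δ := hx.1
        rw [he] at h1
        exact h1
      rw [this]
      exact Set.finite_empty
    · exfalso
      have h1 : δ' ∈ Iio δ := hδ'
      rw [he] at h1
      exact h1
  obtain ⟨a, ha⟩ := (h.cnt δ).exists_eq_range hne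
  have haδ : ∀ n, a n < δ := fun n => by
    have h1 : a n ∈ Iio δ := by
      rw [ha]
      exact ⟨n, rfl⟩
    exact h1
  obtain ⟨T, hT1, hT2⟩ : ∃ T : ℕ → Ω, (∀ n, T n < δ) ∧ ∀ x, x < δ → ∃ n, x ≤ T n := by
    refine ⟨a, haδ, fun x hx => ?_⟩
    have h1 : x ∈ range a := by
      rw [← ha]
      exact hx
    obtain ⟨n, hn⟩ := h1
    exact ⟨n, hn.ge⟩
  set nx : Ω → ℕ := fun x => sInf {n | x ≤ T n} with hnx
  have hn1 : ∀ x, x < δ → x ≤ T (nx x) := fun x hx => Nat.sInf_mem (s := {n | x ≤ T n}) (hT2 x hx)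
  have hn2 : ∀ x m, x ≤ T m → nx x ≤ m := fun x m hm => Nat.sInf_le hm
  set v : ℕ → Ω → ℕ := fun n x => if x < T n then r (T n) x else 0 with hv
  set s : Ω → ℕ := fun x => max (v (nx x) x) (nx x) with hs
  refine ⟨s, fun N => ?_, fun δ' hδ' => ?_⟩
  · have hfin : (⋃ n ∈ Finset.range (N + 1),
        ({x | x < T n ∧ r (T n) x ≤ N} ∪ {T n})).Finite := by
      apply Set.Finite.biUnion (Finset.range (N + 1)).finite_toSet
      intro n _
      exact ((ih (T n) (hT1 n)).1 N).union (Set.finite_singleton _)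
    refine hfin.subset ?_
    rintro x ⟨hx, hsx⟩
    have h1 : nx x ≤ N := (le_max_right _ _).trans hsx
    have h2 : v (nx x) x ≤ N := (le_max_left _ _).trans hsx
    simp only [Set.mem_iUnion]
    refine ⟨nx x, Finset.mem_range.2 (by omega), ?_⟩
    rcases (hn1 x hx).lt_or_eq with h3 | h3
    · left
      refine ⟨h3, ?_⟩
      have h4 : v (nx x) x = r (T (nx x)) x := if_pos h3
      omega
    · right
      exact h3
  · set N := nx δ' with hN
    have hfin : ({x | x < δ' ∧ r δ' x ≤ N} ∪ ⋃ n ∈ Finset.range (N + 1),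
        ({T n} ∪ {x | x < T n ∧ x < δ' ∧ r (T n) x ≠ r δ' x})).Finite := by
      refine ((ih δ' hδ').1 N).union ?_
      apply Set.Finite.biUnion (Finset.range (N + 1)).finite_toSet
      intro n _
      refine (Set.finite_singleton _).union ?_
      rcases lt_trichotomy (T n) δ' with h1 | h1 | h1
      · refine ((ih δ' hδ').2 (T n) h1).subset ?_
        rintro x ⟨h2, _, h3⟩
        exact ⟨h2, h3⟩
      · rw [h1]
        refine Set.finite_empty.subset ?_
        rintro x ⟨_, _, h3⟩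
        exact absurd rfl h3
      · refine ((ih (T n) (hT1 n)).2 δ' h1).subset ?_
        rintro x ⟨_, h2, h3⟩
        exact ⟨h2, fun h4 => h3 h4.symm⟩
    refine hfin.subset ?_
    rintro x ⟨hx, hne'⟩
    by_cases h1 : r δ' x ≤ N
    · exact Or.inl ⟨hx, h1⟩
    · right
      have h2 : nx x ≤ N := hn2 x N (hx.le.trans (hn1 δ' hδ'))
      simp only [Set.mem_iUnion]
      refine ⟨nx x, Finset.mem_range.2 (by omega), ?_⟩
      rcases (hn1 x (hx.trans hδ')).lt_or_eq with h3 | h3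
      · right
        refine ⟨h3, hx, fun h4 => hne' ?_⟩
        have h5 : v (nx x) x = r (T (nx x)) x := if_pos h3
        show r δ' x = max (v (nx x) x) (nx x)
        rw [h5, h4, max_eq_left (by omega)]
      · left
        exact h3

end EXE_

open EXE_ in
theorem p_EXE : T_EXE := by
  intro Ω _ h
  obtain ⟨e, he⟩ := exists_rec h.wf (fun _ : Ω => 0) (P (Ω := Ω)) (by
    intro δ r r' s hr hP
    refine ⟨hP.1, fun δ' hδ' => ?_⟩
    rw [← hr δ' hδ']
    exact hP.2 δ' hδ') (step h)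
  exact ⟨e, fun δ => (he δ).1, fun δ δ' hd => (he δ').2 δ hd⟩

end Pool.Agent.FCB
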