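import Pool.Agent.FCB.Core

/-! EXF: the functions `f`. -/

set_option autoImplicit false

namespace Pool.Agent.FCB

open Set

theorem p_EXF : T_EXF := by
  intro Ω _ hΩ e t he ht
  classical
  obtain ⟨f, hf⟩ : ∃ f : Ω → ℕ → ℕ, ∀ δ, ∀ i, t δ i ≤ f δ i ∧
      ∀ x, x < δ → e δ x ≤ t δ i → f x i < f δ i := by
    refine exists_rec hΩ.wf (fun _ => 0) (fun δ r s => ∀ i, t δ i ≤ s i ∧
      ∀ x, x < δ → e δ x ≤ t δ i → r x i < s i) ?_ ?_
    · intro δ r r' s hrr hP i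
      refine ⟨(hP i).1, fun x hx hex => ?_⟩
      rw [← hrr x hx]
      exact (hP i).2 x hx hex
    · intro δ r _
      have hfin : ∀ i, {x | x < δ ∧ e δ x ≤ t δ i}.Finite := fun i => he.1 δ (t δ i)
      refine ⟨fun i => max (t δ i) (1 + (hfin i).toFinset.sup fun x => r x i), fun i =>
        ⟨le_max_left _ _, fun x hx hex => ?_⟩⟩
      have h1 : r x i ≤ (hfin i).toFinset.sup fun x => r x i := by
        refine Finset.le_sup (f := fun x => r x i) ?_
        rw [Set.Finite.mem_toFinset]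
        exact ⟨hx, hex⟩
      exact lt_of_lt_of_le (by omega) (le_max_right _ _)
  refine ⟨f, fun ξ δ i h h' => (hf δ i).2 ξ h h', ?_, ?_⟩
  · intro ξ δ h
    obtain ⟨m, hm⟩ := ht.2.1 δ (e δ ξ)
    exact ⟨m, fun i hi => (hf δ i).2 ξ h (hm.trans (ht.1 δ hi))⟩
  · intro A hA k
    by_contra hcon
    push Not at hcon
    have hb : ∀ i, ∃ b, k ≤ i → ∀ ξ ∈ A, f ξ i ≤ b := by
      intro i
      by_cases hi : k ≤ i
      · have h1 := hcon i hi
        obtain ⟨b, hb⟩ := h1.bddAbove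
        exact ⟨b, fun _ ξ hξ => hb ⟨ξ, hξ, rfl⟩⟩
      · exact ⟨0, fun h => absurd h hi⟩
    choose g hg using hb
    obtain ⟨δ, hδ⟩ := ht.2.2.2 g
    obtain ⟨x, hx, hlt⟩ := hΩ.exists_mem_gt hA δ
    obtain ⟨m, hm⟩ := ht.2.2.1 δ x hlt
    obtain ⟨i, hi, hgi⟩ := hδ (max k m)
    have h1 := hm i ((le_max_right _ _).trans hi)
    have h2 := (hf x i).1
    have h3 := hg i ((le_max_left _ _).trans hi) x hx
    omega

end Pool.Agent.FCB
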