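import Pool.Agent.FCB.Core

/-!
# FCB: EXR (the neighbourhood functions exist)
-/

set_option autoImplicit false

namespace Pool.Agent.FCB

open Set

namespace EXR_

variable {Ω : Type} [LinearOrder Ω]

lemma coh_congr {r r' : Ω → Ω → ℕ → ℕ} {s : Ω → ℕ → ℕ} {ζ : Ω} (h : r ζ = r' ζ)
    (hc : Coh r s ζ) : Coh r' s ζ := by
  intro m
  rcases hc m with h1 | ⟨γ, hγ, h1⟩
  · exact Or.inl h1
  · refine Or.inr ⟨γ, hγ, fun ξ j h2 h3 h4 => h1 ξ j h2 h3 ?_⟩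
    rw [h]
    exact h4

lemma rat_congr {e : Ω → Ω → ℕ} {t f : Ω → ℕ → ℕ} {δ : Ω} {r r' : Ω → Ω → ℕ → ℕ}
    {s : Ω → ℕ → ℕ} (h : ∀ δ', δ' < δ → r δ' = r' δ') (hr : RAt e t f δ r s) :
    RAt e t f δ r' s := by
  obtain ⟨h1, h2, h3⟩ := hr
  refine ⟨h1, fun ζ hζ => coh_congr (h ζ hζ) (h2 ζ hζ), fun ξ j hξ => ?_⟩
  rcases h3 ξ j hξ with h4 | ⟨ζ, h4, h5, h6⟩
  · exact Or.inl h4
  · refine Or.inr ⟨ζ, h4, h5, fun η h7 h8 => ?_⟩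
    rw [← h ζ h5]
    exact h6 η h7 h8

end EXR_

theorem p_EXR : T_RST → T_EXR := by
  intro hRST Ω _ hOM e t f he ht hf
  obtain ⟨r, hr⟩ := exists_rec (S := Ω → ℕ → ℕ) hOM.wf (fun _ _ => 0)
    (fun δ r s => RAt e t f δ r s) (fun δ r r' s h hs => EXR_.rat_congr h hs)
    (fun δ r h => hRST Ω hOM e t f he ht hf δ r h)
  exact ⟨r, hr⟩

end Pool.Agent.FCB
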