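import Pool.Agent.FCB.Core

/-! EXT: the increasing unbounded chain. -/

set_option autoImplicit false

namespace Pool.Agent.FCB

open Set

theorem p_EXT : T_EXT := by
  intro Ω _ hΩ ⟨F, hF⟩
  obtain ⟨t, ht⟩ : ∃ t : Ω → ℕ → ℕ, ∀ δ, Monotone (t δ) ∧ (∀ i, i ≤ t δ i) ∧
      (∀ i, F δ i ≤ t δ i) ∧ ∀ x, x < δ → ∃ m, ∀ i, m ≤ i → t x i ≤ t δ i := by
    refine exists_rec hΩ.wf (fun _ => 0) (fun δ r s => Monotone s ∧ (∀ i, i ≤ s i) ∧
      (∀ i, F δ i ≤ s i) ∧ ∀ x, x < δ → ∃ m, ∀ i, m ≤ i → r x i ≤ s i) ?_ ?_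
    · intro δ r r' s hrr hP
      refine ⟨hP.1, hP.2.1, hP.2.2.1, fun x hx => ?_⟩
      rw [← hrr x hx]
      exact hP.2.2.2 x hx
    · intro δ r _
      have hne : Nonempty Ω := ⟨δ⟩
      obtain ⟨a, ha⟩ := Set.countable_iff_exists_subset_range.1 (hΩ.cnt δ)
      let w : ℕ → ℕ := fun i' => F δ i' + ∑ n ∈ Finset.range (i' + 1), r (a n) i'
      have hw : ∀ i, w i ≤ ∑ i' ∈ Finset.range (i + 1), w i' := fun i =>
        Finset.single_le_sum (f := w) (fun _ _ => Nat.zero_le _) (Finset.self_mem_range_succ i)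
      refine ⟨fun i => i + ∑ i' ∈ Finset.range (i + 1), w i', ?_, fun i => Nat.le_add_right _ _,
        fun i => ?_, fun x hx => ?_⟩
      · intro i j hij
        have h1 : ∑ i' ∈ Finset.range (i + 1), w i' ≤ ∑ i' ∈ Finset.range (j + 1), w i' :=
          Finset.sum_le_sum_of_subset (Finset.range_mono (by omega))
        show i + ∑ i' ∈ Finset.range (i + 1), w i' ≤ j + ∑ i' ∈ Finset.range (j + 1), w i'
        omega
      · have h1 := hw i
        have h2 : F δ i ≤ w i := Nat.le_add_right _ _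
        show F δ i ≤ i + ∑ i' ∈ Finset.range (i + 1), w i'
        omega
      · obtain ⟨n, rfl⟩ := ha hx
        refine ⟨n, fun i hi => ?_⟩
        have h1 := hw i
        have h2 : r (a n) i ≤ ∑ n ∈ Finset.range (i + 1), r (a n) i :=
          Finset.single_le_sum (f := fun n => r (a n) i) (fun _ _ => Nat.zero_le _)
            (Finset.mem_range.2 (by omega))
        have h3 : ∑ n ∈ Finset.range (i + 1), r (a n) i ≤ w i := Nat.le_add_left _ _
        show r (a n) i ≤ i + ∑ i' ∈ Finset.range (i + 1), w i'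
        omega
  refine ⟨t, fun δ => (ht δ).1, fun δ n => ⟨n, (ht δ).2.1 n⟩, fun ξ δ h => (ht δ).2.2.2 ξ h,
    fun g => ?_⟩
  obtain ⟨δ, hδ⟩ := hF g
  refine ⟨δ, fun m => ?_⟩
  obtain ⟨i, hi, hgi⟩ := hδ m
  exact ⟨i, hi, lt_of_lt_of_le hgi ((ht δ).2.2.1 i)⟩

end Pool.Agent.FCB
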