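import Pool.Agent.FCB.Core

/-!
# Project FCB: FCT, the functional countability criterion (helper1)
-/

set_option autoImplicit false

namespace Pool.Agent.FCB

open Set Topology

namespace FCT_

/-- An uncountable set of reals has uncountable parts on both sides of a gap. -/
lemma exists_gap {R : Set ℝ} (hR : ¬ R.Countable) : ∃ q q' : ℚ, q < q' ∧
    ¬ (R ∩ Iic (q : ℝ)).Countable ∧ ¬ (R ∩ Ici (q' : ℝ)).Countable := by
  by_contra hcon
  have h1 : ∀ q q' : ℚ, q < q' → ¬ (R ∩ Iic (q : ℝ)).Countable →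
      (R ∩ Ici (q' : ℝ)).Countable := by
    intro q q' hq h2
    by_contra h3
    exact hcon ⟨q, q', hq, h2, h3⟩
  set A : Set ℝ := ⋃ q ∈ {q : ℚ | (R ∩ Iic (q : ℝ)).Countable}, R ∩ Iic (q : ℝ) with hA
  set B : Set ℝ := ⋃ q ∈ {q : ℚ | (R ∩ Ici (q : ℝ)).Countable}, R ∩ Ici (q : ℝ) with hB
  have hAc : A.Countable := (Set.to_countable _).biUnion fun q hq => hq
  have hBc : B.Countable := (Set.to_countable _).biUnion fun q hq => hq
  have key : ∀ x y : ℝ, x ∈ R \ (A ∪ B) → y ∈ R \ (A ∪ B) → ¬ x < y := by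
    intro x y hx hy hxy
    obtain ⟨q, hq1, hq2⟩ := exists_rat_btwn hxy
    obtain ⟨q', hq3, hq4⟩ := exists_rat_btwn hq2
    by_cases h2 : (R ∩ Iic (q : ℝ)).Countable
    · exact hx.2 (Or.inl (mem_biUnion (show q ∈ {q : ℚ | (R ∩ Iic (q : ℝ)).Countable} from h2)
        ⟨hx.1, hq1.le⟩))
    · have h3 := h1 q q' (by exact_mod_cast hq3) h2
      exact hy.2 (Or.inr (mem_biUnion (show q' ∈ {q : ℚ | (R ∩ Ici (q : ℝ)).Countable} from h3)
        ⟨hy.1, hq4.le⟩))
  have hC : (R \ (A ∪ B)).Countable := by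
    refine Set.Subsingleton.countable fun x hx y hy => ?_
    exact le_antisymm (not_lt.1 (key y x hy hx)) (not_lt.1 (key x y hx hy))
  refine hR (((hAc.union hBc).union hC).mono fun x hx => ?_)
  by_cases h : x ∈ A ∪ B
  · exact Or.inl h
  · exact Or.inr ⟨hx, h⟩

end FCT_

/-- FCT: if uncountable closed sets meet, then every real function has countable range. -/
theorem p_FCT : T_FCT := by
  intro X _ hE g hg
  by_contra hR
  obtain ⟨q, q', hq, h1, h2⟩ := FCT_.exists_gap hR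
  have h3 : ¬ (g ⁻¹' Iic (q : ℝ)).Countable := by
    intro h
    refine h1 ((h.image g).mono ?_)
    rintro _ ⟨⟨x, rfl⟩, hx⟩
    exact ⟨x, hx, rfl⟩
  have h4 : ¬ (g ⁻¹' Ici (q' : ℝ)).Countable := by
    intro h
    refine h2 ((h.image g).mono ?_)
    rintro _ ⟨⟨x, rfl⟩, hx⟩
    exact ⟨x, hx, rfl⟩
  obtain ⟨x, hx1, hx2⟩ := hE _ _ (isClosed_Iic.preimage hg) (isClosed_Ici.preimage hg) h3 h4
  have h5 : (q : ℝ) < (q' : ℝ) := by exact_mod_cast hq
  exact absurd (lt_of_lt_of_le h5 hx2) (not_lt.2 hx1)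

end Pool.Agent.FCB
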