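import Pool.Agent.FCB.Core

/-! # FCB, target FIX: the final step of capturing -/

set_option autoImplicit false

namespace Pool.Agent.FCB

open Set

theorem p_FIX : T_FIX := by
  intro Ω _ e t f r hD A γ β δ₀ δ Q x hγ hβ hδ hQ0 hQ hW hx
  obtain ⟨hE, hT, hF, hR⟩ := hD
  have hmono : Monotone (t δ) := hT.1 δ
  have hH := hE.2 δ₀ δ hδ
  obtain ⟨K₀, hK₀⟩ := (hH.image (e δ₀)).bddAbove
  have hβδ : β < δ := hβ.trans hδ
  obtain ⟨k, hk, hkt⟩ := hx (max (K₀ + 1) (cc f β δ + 1))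
  have hk1 : K₀ < k := (le_max_left _ _).trans hk
  have hk2 : cc f β δ < k := (le_max_right _ _).trans hk
  obtain ⟨hxA, hγx, hxδ₀, hsm, hag, hcc⟩ := hW k
  have hHk : ∀ y, y < δ₀ → e δ₀ y ≠ e δ y → e δ₀ y < k := by
    intro y hy hne
    exact (hK₀ ⟨y, ⟨hy, hne⟩, rfl⟩).trans_lt hk1
  have hxδ : x k < δ := hxδ₀.trans hδ
  have hex : e δ₀ (x k) = e δ (x k) := by
    by_contra hne
    exact lt_irrefl _ (hsm (x k) hxδ₀ (hHk (x k) hxδ₀ hne))
  have het : e δ (x k) < t δ k := hex ▸ hkt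
  have hbig : ∀ i, k ≤ i → f (x k) i < f δ i := fun i hi =>
    hF.1 (x k) δ i hxδ (het.le.trans (hmono hi))
  have hceq : cc f (x k) δ = cc f β δ := by
    refine le_antisymm (cc_le fun i hi => ?_) ?_
    · rcases lt_or_ge i k with h | h
      · rw [hag i h]
        exact hF.cc_spec hβδ hi
      · exact (hbig i h).le
    · by_contra hcon
      push Not at hcon
      obtain ⟨c', hc'⟩ : ∃ c', cc f β δ = c' + 1 := ⟨cc f β δ - 1, by omega⟩
      have h1 : f δ c' < f β c' := cc_pred hc' (hF.ex_le hβδ)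
      have h2 : f δ c' < f (x k) c' := by
        rw [hag c' (by omega)]
        exact h1
      have h3 := hF.lt_cc hxδ h2
      omega
  refine ⟨x k, hxA, hγx, hxδ, hceq, fun j => ?_⟩
  rcases (hR δ).2.2 (x k) j hxδ with h | ⟨ζ, hxζ, hζδ, hζ⟩
  · exact h
  · exfalso
    have h1 := hζ (x k) le_rfl hxζ
    have h2 : max (e δ ζ) (r ζ (x k) j) < k := by
      by_contra hcon
      push Not at hcon
      exact absurd (hmono hcon) (not_le.2 (h1.trans het))
    have h3 : e δ ζ < k := (le_max_left _ _).trans_lt h2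
    have h4 : r ζ (x k) j < k := (le_max_right _ _).trans_lt h2
    have hmemQ : ζ ∈ Q → False := by
      intro hζQ
      have h5 := hcc ζ hζQ
      have h6 := ((hR ζ).1 (x k) j hxζ).2
      omega
    rcases lt_trichotomy ζ δ₀ with h | h | h
    · have h5 : e δ₀ ζ < k := by
        by_cases hne : e δ₀ ζ = e δ ζ
        · rw [hne]
          exact h3
        · exact hHk ζ h hne
      exact lt_asymm hxζ (hsm ζ h h5)
    · exact hmemQ (h ▸ hQ0)
    · by_cases hζQ : ζ ∈ Q
      · exact hmemQ hζQ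
      · have h5 : ¬ t δ (e δ ζ) < e δ δ₀ := fun hc => hζQ (hQ ζ h hζδ hc)
        have h6 := hζ δ₀ hxδ₀.le h
        have h7 : t δ (e δ ζ) ≤ t δ (max (e δ ζ) (r ζ (x k) j)) := hmono (le_max_left _ _)
        omega

end Pool.Agent.FCB
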