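import Pool.Agent.FCB.Core

/-! Target GOO of project FCB: all but countably many points of `A` are good. -/

set_option autoImplicit false

namespace Pool.Agent.FCB

open Set

theorem p_GOO : T_GOO := by
  intro Ω _ f A
  classical
  let N : (Σ k : ℕ, (Fin k → ℕ)) → Set Ω := fun s =>
    if {ξ | ξ ∈ A ∧ ∀ i : Fin s.1, f ξ i = s.2 i}.Countable then
      {ξ | ξ ∈ A ∧ ∀ i : Fin s.1, f ξ i = s.2 i} else ∅
  have hN : ∀ s, (N s).Countable := by
    intro s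
    by_cases h : {ξ | ξ ∈ A ∧ ∀ i : Fin s.1, f ξ i = s.2 i}.Countable
    · simp only [N, if_pos h]
      exact h
    · simp only [N, if_neg h]
      exact Set.countable_empty
  refine (Set.countable_iUnion hN).mono ?_
  rintro β ⟨hβ, hbad⟩
  have hex : ∃ k : ℕ, {ξ | ξ ∈ A ∧ ∀ i, i < k → f ξ i = f β i}.Countable := by
    by_contra hcon
    exact hbad ⟨hβ, fun k hk => hcon ⟨k, hk⟩⟩
  obtain ⟨k, hk⟩ := hex
  refine Set.mem_iUnion.2 ⟨⟨k, fun i => f β i⟩, ?_⟩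
  have he : {ξ | ξ ∈ A ∧ ∀ i : Fin k, f ξ i = f β i} =
      {ξ | ξ ∈ A ∧ ∀ i, i < k → f ξ i = f β i} := by
    ext ξ
    constructor
    · rintro ⟨h1, h2⟩
      exact ⟨h1, fun i hi => h2 ⟨i, hi⟩⟩
    · rintro ⟨h1, h2⟩
      exact ⟨h1, fun i => h2 i i.2⟩
  have hk' : {ξ | ξ ∈ A ∧ ∀ i : Fin k, f ξ i = f β i}.Countable := by
    rw [he]
    exact hk
  simp only [N, if_pos hk']
  exact ⟨hβ, fun _ => rfl⟩

end Pool.Agent.FCB
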