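import Pool.Agent.FCB.Core

/-!
# Project FCB, target LEV

Two uncountable closed sets contain `S × {m₁}` and `S × {m₂}` for one uncountable `S`.
-/

set_option autoImplicit false

namespace Pool.Agent.FCB

open Set

namespace LEV_

/-- An uncountable set has an uncountable slice. -/
lemma slice {Ω : Type} {E : Set (Ω × ℕ)} (hE : ¬ E.Countable) :
    ∃ j : ℕ, ¬ {ξ | (ξ, j) ∈ E}.Countable := by
  by_contra hcon
  push Not at hcon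
  refine hE (Set.Countable.mono (s₂ := ⋃ j : ℕ, (fun ξ : Ω => (ξ, j)) '' {ξ | (ξ, j) ∈ E}) ?_ ?_)
  · rintro ⟨ξ, j⟩ h
    exact mem_iUnion.2 ⟨j, ξ, h, rfl⟩
  · exact countable_iUnion fun j => (hcon j).image _

/-- An uncountable set covered by a countable family has an uncountable part. -/
lemma fibre {Ω ι : Type} [Countable ι] {C : Set Ω} (hC : ¬ C.Countable) (h : Ω → ι) :
    ∃ i : ι, ¬ {δ | δ ∈ C ∧ h δ = i}.Countable := by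
  by_contra hcon
  push Not at hcon
  refine hC (Set.Countable.mono (s₂ := ⋃ i : ι, {δ | δ ∈ C ∧ h δ = i}) ?_ ?_)
  · intro δ hδ
    exact mem_iUnion.2 ⟨h δ, hδ, rfl⟩
  · exact countable_iUnion hcon

/-- A good point in an uncountable set. -/
lemma good {Ω : Type} [LinearOrder Ω] (hG : T_GOO) (f : Ω → ℕ → ℕ) {A : Set Ω}
    (hA : ¬ A.Countable) : ∃ β, Good f A β := by
  by_contra hcon
  push Not at hcon
  have hsub : A ⊆ {β | β ∈ A ∧ ¬ Good f A β} := fun β hβ => ⟨hβ, hcon β⟩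
  exact hA ((hG Ω f A).mono hsub)

end LEV_

theorem p_LEV : T_CAP → T_UNB → T_GOO → T_LEV := by
  intro hCAP hUNB hGOO Ω _ hOM e t f r hD E₁ E₂ hE₁ hE₂ hc₁ hc₂
  obtain ⟨j₁, hj₁⟩ := LEV_.slice hc₁
  obtain ⟨j₂, hj₂⟩ := LEV_.slice hc₂
  obtain ⟨β₁, hβ₁⟩ := LEV_.good hGOO f hj₁
  obtain ⟨β₂, hβ₂⟩ := LEV_.good hGOO f hj₂
  obtain ⟨g₁, hg₁⟩ := hCAP Ω hOM e t f r hD {ξ | (ξ, j₁) ∈ E₁}
  obtain ⟨g₂, hg₂⟩ := hCAP Ω hOM e t f r hD {ξ | (ξ, j₂) ∈ E₂}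
  set C : Set Ω := {δ | β₁ < δ ∧ β₂ < δ ∧ (∀ α, α < δ → g₁ α < δ) ∧ ∀ α, α < δ → g₂ α < δ}
    with hC
  have hCunc : ¬ C.Countable := by
    refine hOM.unc_of_unbounded fun c => ?_
    obtain ⟨δ, hδ, hcl⟩ := hUNB Ω hOM (fun α => max (g₁ α) (g₂ α)) {β₁, β₂, c}
      ((Set.toFinite _).countable)
    refine ⟨δ, ⟨hδ β₁ (by simp), hδ β₂ (by simp), fun α hα => ?_, fun α hα => ?_⟩,
      hδ c (by simp)⟩
    · exact lt_of_le_of_lt (le_max_left _ _) (hcl α hα)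
    · exact lt_of_le_of_lt (le_max_right _ _) (hcl α hα)
  obtain ⟨⟨m₁, m₂⟩, hm⟩ := LEV_.fibre hCunc
    fun δ => (max j₁ (cc f β₁ δ), max j₂ (cc f β₂ δ))
  refine ⟨_, m₁, m₂, hm, ?_⟩
  rintro δ ⟨⟨h1, h2, h3, h4⟩, h5⟩
  have h6 : max j₁ (cc f β₁ δ) = m₁ := congrArg Prod.fst h5
  have h7 : max j₂ (cc f β₂ δ) = m₂ := congrArg Prod.snd h5
  refine ⟨?_, ?_⟩
  · rw [← h6]
    exact (hg₁ δ h3).mem hE₁ (fun ξ hξ => hξ) h1 hβ₁
  · rw [← h7]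
    exact (hg₂ δ h4).mem hE₂ (fun ξ hξ => hξ) h2 hβ₂

end Pool.Agent.FCB
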