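import Pool.Agent.FCB.Core

/-! Project FCB, target MEET: two uncountable closed sets meet. -/

set_option autoImplicit false

namespace Pool.Agent.FCB

open Set

theorem p_MEET : T_LEV → T_CAP → T_UNB → T_GOO → T_MEET := by
  intro hLEV hCAP hUNB hGOO Ω _ hΩ e t f r hD E₁ E₂ hE₁ hE₂ hu₁ hu₂
  obtain ⟨S, m₁, m₂, hS, hSE⟩ := hLEV Ω hΩ e t f r hD E₁ E₂ hE₁ hE₂ hu₁ hu₂
  have hf := hD.2.2.1
  have hG : ¬ {β | Good f S β}.Countable := by
    intro hc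
    refine hS ((hc.union (hGOO Ω f S)).mono ?_)
    intro β hβ
    by_cases h : Good f S β
    · exact Or.inl h
    · exact Or.inr ⟨hβ, h⟩
  obtain ⟨i, hki, hinf⟩ := hf.2.2 {β | Good f S β} hG (max m₁ m₂)
  obtain ⟨g, hg⟩ := hCAP Ω hΩ e t f r hD S
  classical
  let B : Set Ω := {b | ∃ n : ℕ, ∃ h : ∃ ξ ∈ {β | Good f S β}, f ξ i = n, b = h.choose}
  have hB : B.Countable := by
    have h1 : B ⊆ ⋃ n : ℕ, {b | ∃ h : ∃ ξ ∈ {β | Good f S β}, f ξ i = n, b = h.choose} := by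
      rintro b ⟨n, h, hb⟩
      exact mem_iUnion.2 ⟨n, h, hb⟩
    refine (countable_iUnion fun n => ?_).mono h1
    refine Set.Subsingleton.countable ?_
    rintro x ⟨h, hx⟩ y ⟨h', hy⟩
    rw [hx, hy]
  obtain ⟨δ, hBδ, hcl⟩ := hUNB Ω hΩ g B hB
  obtain ⟨n, hn, hlt⟩ := hinf.exists_gt (f δ i)
  have hspec := hn.choose_spec
  have hbδ : hn.choose < δ := hBδ _ ⟨n, hn, rfl⟩
  have hgood : Good f S hn.choose := hspec.1
  have hfi : f δ i < f hn.choose i := by rw [hspec.2]; exact hlt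
  have hcc : i < cc f hn.choose δ := hf.lt_cc hbδ hfi
  have h1 := (hg δ hcl).mem hE₁ (j := m₁) (fun ξ hξ => (hSE ξ hξ).1) hbδ hgood
  have h2 := (hg δ hcl).mem hE₂ (j := m₂) (fun ξ hξ => (hSE ξ hξ).2) hbδ hgood
  have hm1 : m₁ ≤ cc f hn.choose δ := (le_max_left m₁ m₂).trans (hki.trans hcc.le)
  have hm2 : m₂ ≤ cc f hn.choose δ := (le_max_right m₁ m₂).trans (hki.trans hcc.le)
  rw [max_eq_right hm1] at h1
  rw [max_eq_right hm2] at h2
  exact ⟨_, h1, h2⟩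

end Pool.Agent.FCB
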