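import Pool.Agent.FCB.Core

/-! OMX: the well order of type `omega_1`, and an unbounded family indexed by it. -/

set_option autoImplicit false

namespace Pool.Agent.FCB

open Set Cardinal

namespace OMX_

/-- The least uncountable well ordered set. -/
abbrev J : Type := (Cardinal.aleph.{0} 1).ord.ToType

lemma mk_J : #J = Cardinal.aleph 1 := Cardinal.mk_ord_toType _

lemma J_count (j : J) : (Iio j).Countable := by
  have h : #(Iio j) < #J := Cardinal.mk_Iio_lt j (by rw [mk_J]; simp)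
  rw [mk_J] at h
  have h2 : #(Iio j) ≤ ℵ₀ := by
    rw [← Order.lt_succ_iff, ← Cardinal.aleph_zero, ← Cardinal.aleph_succ]
    simpa using h
  exact Cardinal.le_aleph0_iff_set_countable.1 h2

lemma J_unc : Uncountable J := by
  rw [← not_countable_iff]
  intro h
  have h2 : #J ≤ ℵ₀ := Cardinal.mk_le_aleph0_iff.2 h
  rw [mk_J] at h2
  exact absurd h2 (not_le.2 Cardinal.aleph0_lt_aleph_one)

end OMX_

open OMX_ in
theorem p_OMX : T_OMX := by
  refine ⟨⟨inferInstance, J_count, J_unc⟩, ?_⟩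
  intro hneg
  push Not at hneg
  obtain ⟨F, hF, hg⟩ := hneg
  have hne : Nonempty F := by
    obtain ⟨f, hf, _⟩ := hg (fun _ => 0)
    exact ⟨⟨f, hf⟩⟩
  have hle : #F ≤ #J := by
    rw [mk_J]
    exact hF
  obtain ⟨φ⟩ := hle
  refine ⟨fun δ => ((Function.invFun φ δ : F) : ℕ → ℕ), fun g => ?_⟩
  obtain ⟨f, hf, hfg⟩ := hg g
  refine ⟨φ ⟨f, hf⟩, fun m => ?_⟩
  have h1 : Function.invFun φ (φ ⟨f, hf⟩) = ⟨f, hf⟩ :=
    Function.leftInverse_invFun φ.injective _
  show ∃ i, m ≤ i ∧ g i < ((Function.invFun φ (φ ⟨f, hf⟩) : F) : ℕ → ℕ) i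
  rw [h1]
  by_contra hcon
  push Not at hcon
  apply hfg
  filter_upwards [Filter.eventually_ge_atTop m] with n hn
  exact not_lt.2 (hcon n hn)

end Pool.Agent.FCB
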