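import Pool.Agent.FCB.Core

/-!
# FCB: closure condition for the witnesses (PSI)
-/

set_option autoImplicit false

namespace Pool.Agent.FCB

open Set

variable {Ω : Type} [LinearOrder Ω]

namespace PSI_

lemma cnt_fin (h : OM Ω) (c : Ω) : {Q : Finset Ω | ∀ ζ ∈ Q, ζ ≤ c}.Countable := by
  have h1 := (Set.countable_ofPred_finite_subset (h.cntIic c)).preimage_of_injOn
    (f := fun Q : Finset Ω => (Q : Set Ω)) Finset.coe_injective.injOn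
  refine h1.mono fun Q hQ => ?_
  exact ⟨Q.finite_toSet, fun ζ hζ => hQ ζ (by simpa using hζ)⟩

/-- The quadruples with all entries at most `c`. -/
def Qs (c : Ω) : Set (Ω × Ω × Ω × Finset Ω) :=
  Iic c ×ˢ (Iic c ×ˢ (Iic c ×ˢ {Q : Finset Ω | ∀ ζ ∈ Q, ζ ≤ c}))

lemma cnt_Qs (h : OM Ω) (c : Ω) : (Qs c).Countable :=
  (h.cntIic c).prod ((h.cntIic c).prod ((h.cntIic c).prod (cnt_fin h c)))

end PSI_

theorem p_PSI : T_WIT → T_PSI := by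
  intro hW Ω _ hO e t f he ht hf A
  have key : ∀ q : Ω × Ω × Ω × Finset Ω, ∃ (X : ℕ → Ω) (a : Ω),
      Rfl f A q.2.2.1 → Good f A q.2.1 → q.1 < q.2.2.1 → q.2.1 < q.2.2.1 →
      (∀ ζ ∈ q.2.2.2, q.2.2.1 ≤ ζ) →
      (∀ k, Wit e f A q.1 q.2.1 q.2.2.1 q.2.2.2 k (X k)) ∧
        ∀ m, ∃ k, m ≤ k ∧ e q.2.2.1 (X k) < t a k := by
    intro q
    by_cases hq : Rfl f A q.2.2.1 ∧ Good f A q.2.1 ∧ q.1 < q.2.2.1 ∧ q.2.1 < q.2.2.1 ∧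
        (∀ ζ ∈ q.2.2.2, q.2.2.1 ≤ ζ)
    · obtain ⟨h1, h2, h3, h4, h5⟩ := hq
      have h6 := hW Ω e t f he hf A q.1 q.2.1 q.2.2.1 q.2.2.2 h1 h2 h3 h4 h5
      choose X hX using h6
      obtain ⟨a, ha⟩ := ht.2.2.2 fun k => e q.2.2.1 (X k)
      exact ⟨X, a, fun _ _ _ _ _ => ⟨hX, ha⟩⟩
    · exact ⟨fun _ => q.1, q.1, fun h1 h2 h3 h4 h5 => absurd ⟨h1, h2, h3, h4, h5⟩ hq⟩
  choose X a hXa using key
  have hG : ∀ c : Ω, ∃ b, ∀ x ∈ a '' PSI_.Qs c, x < b := fun c =>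
    hO.exists_gt ((PSI_.cnt_Qs hO c).image a)
  choose G hG using hG
  refine ⟨G, fun δ hδ γ β δ₀ Q h1 h2 h3 h4 h5 h6 h7 => ?_⟩
  obtain ⟨hX, hu⟩ := hXa (γ, β, δ₀, Q) h1 h2 h3 h4 h6
  refine ⟨X (γ, β, δ₀, Q), hX, fun m => ?_⟩
  classical
  have hne : (insert δ₀ Q).Nonempty := ⟨δ₀, Finset.mem_insert_self _ _⟩
  set c : Ω := (insert δ₀ Q).max' hne with hc
  have hcm : c ∈ insert δ₀ Q := Finset.max'_mem _ _
  have hcδ : c < δ := by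
    rcases Finset.mem_insert.1 hcm with h | h
    · rw [h]; exact h5
    · exact h7 c h
  have h0c : δ₀ ≤ c := Finset.le_max' _ _ (Finset.mem_insert_self _ _)
  have hmem : (γ, β, δ₀, Q) ∈ PSI_.Qs c := by
    refine ⟨h3.le.trans h0c, h4.le.trans h0c, h0c, fun ζ hζ => ?_⟩
    exact Finset.le_max' _ _ (Finset.mem_insert_of_mem hζ)
  have hac : a (γ, β, δ₀, Q) < δ := (hG c _ ⟨_, hmem, rfl⟩).trans (hδ c hcδ)
  obtain ⟨m₀, hm₀⟩ := ht.2.2.1 _ _ hac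
  obtain ⟨k, hk, hk2⟩ := hu (max m m₀)
  exact ⟨k, (le_max_left _ _).trans hk, lt_of_lt_of_le hk2 (hm₀ k ((le_max_right _ _).trans hk))⟩

end Pool.Agent.FCB
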