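import Pool.Agent.FCB.Core

/-! RFL: reflecting points. -/

set_option autoImplicit false

namespace Pool.Agent.FCB

open Set

variable {Ω : Type} [LinearOrder Ω]

namespace RFL_

/-- A countable subset with the same infinite set of values. -/
lemma pick (B : Set Ω) (v : Ω → ℕ) (h : {n | ∃ ξ ∈ B, v ξ = n}.Infinite) :
    ∃ C : Set Ω, C.Countable ∧ C ⊆ B ∧ {n | ∃ ξ ∈ C, v ξ = n}.Infinite := by
  classical
  have hch : ∀ n : {n : ℕ // ∃ ξ ∈ B, v ξ = n}, ∃ ξ, ξ ∈ B ∧ v ξ = n.1 := fun n => n.2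
  choose x hx using hch
  refine ⟨range x, countable_range x, ?_, ?_⟩
  · rintro _ ⟨n, rfl⟩
    exact (hx n).1
  · refine h.mono ?_
    intro n hn
    exact ⟨x ⟨n, hn⟩, ⟨⟨n, hn⟩, rfl⟩, (hx ⟨n, hn⟩).2⟩

lemma bound (hO : OM Ω) {e : Ω → Ω → ℕ} {t f : Ω → ℕ → ℕ} (hf : FData e t f) (A : Set Ω)
    (γ β : Ω) : ∃ H : Ω, ∀ k : ℕ, Good f A β → ∃ i, k ≤ i ∧
      {n | ∃ ξ ∈ A, γ < ξ ∧ ξ < H ∧ (∀ i', i' < k → f ξ i' = f β i') ∧ f ξ i = n}.Infinite := by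
  by_cases hg : Good f A β
  · have hk : ∀ k : ℕ, ∃ (i : ℕ) (C : Set Ω), k ≤ i ∧ C.Countable ∧
        C ⊆ {ξ | (ξ ∈ A ∧ ∀ i', i' < k → f ξ i' = f β i') ∧ γ < ξ} ∧
        {n | ∃ ξ ∈ C, f ξ i = n}.Infinite := by
      intro k
      have h1 : ¬ {ξ | ξ ∈ {ξ | ξ ∈ A ∧ ∀ i', i' < k → f ξ i' = f β i'} ∧ γ < ξ}.Countable :=
        hO.unc_gt (hg.2 k) γ
      obtain ⟨i, hi, hinf⟩ := hf.2.2 _ h1 k
      obtain ⟨C, hC1, hC2, hC3⟩ := pick _ (fun ξ => f ξ i) hinf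
      exact ⟨i, C, hi, hC1, hC2, hC3⟩
    choose i C h1 h2 h3 h4 using hk
    obtain ⟨H, hH⟩ := hO.exists_gt (countable_iUnion h2)
    refine ⟨H, fun k _ => ⟨i k, h1 k, (h4 k).mono ?_⟩⟩
    rintro n ⟨ξ, hξ, hn⟩
    have h5 := h3 k hξ
    exact ⟨ξ, h5.1.1, h5.2, hH ξ (mem_iUnion.2 ⟨k, hξ⟩), h5.1.2, hn⟩
  · exact ⟨γ, fun k h => absurd h hg⟩

/-- A function bounding `H` on initial squares. -/
lemma dom (hO : OM Ω) (H : Ω → Ω → Ω) : ∃ h : Ω → Ω, ∀ α γ β, γ ≤ α → β ≤ α → H γ β < h α := by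
  have hk : ∀ α, ∃ δ, ∀ x ∈ (fun p : Ω × Ω => H p.1 p.2) '' (Iic α ×ˢ Iic α), x < δ := fun α =>
    hO.exists_gt (((hO.cntIic α).prod (hO.cntIic α)).image _)
  choose h hh using hk
  exact ⟨h, fun α γ β h1 h2 => hh α _ ⟨(γ, β), ⟨h1, h2⟩, rfl⟩⟩

end RFL_

theorem p_RFL : T_UNB → T_RFL := by
  intro hU Ω _ hO e t f hf A
  choose H hH using RFL_.bound hO hf A
  obtain ⟨h, hh⟩ := RFL_.dom hO H
  have hD : ∀ α : Ω, ∃ δ, α < δ ∧ ∀ x, x < δ → h x < δ := by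
    intro α
    obtain ⟨δ, h1, h2⟩ := hU Ω hO h {α} (countable_singleton α)
    exact ⟨δ, h1 α rfl, h2⟩
  choose D hD1 hD2 using hD
  refine ⟨D, fun δ hδ γ β hγ hβ => ?_⟩
  refine ⟨D (max γ β), (le_max_left _ _).trans_lt (hD1 _), (le_max_right _ _).trans_lt (hD1 _),
    hδ _ (max_lt hγ hβ), ?_⟩
  intro k γ' β' hγ' hβ' hg
  obtain ⟨i, hi, hinf⟩ := hH γ' β' k hg
  have h3 : H γ' β' < D (max γ β) :=
    (hh (max γ' β') γ' β' (le_max_left _ _) (le_max_right _ _)).trans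
      (hD2 _ _ (max_lt hγ' hβ'))
  refine ⟨i, hi, hinf.mono ?_⟩
  rintro n ⟨ξ, hξA, h4, h5, h6, h7⟩
  exact ⟨ξ, hξA, h4, h5.trans h3, h6, h7⟩

end Pool.Agent.FCB
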