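import Pool.Agent.FCB.Core

/-! RST: one step of the construction of the neighbourhood functions. -/

set_option autoImplicit false

namespace Pool.Agent.FCB

open Set

namespace RST_

variable {Ω : Type} [LinearOrder Ω]

lemma exG {e : Ω → Ω → ℕ} (hE : EData e) {δ : Ω} (N : ℕ) (z : Ω) (hz : z < δ) :
    ∃ g, (∀ η, ¬ η < z) ∨ (g < z ∧ ∀ y, y < z → e δ y ≤ N → y ≤ g) := by
  by_cases hmin : ∀ η, ¬ η < z
  · exact ⟨z, Or.inl hmin⟩
  · push Not at hmin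
    obtain ⟨y₀, hy₀⟩ := hmin
    have hfin : (insert y₀ {y | y < z ∧ e δ y ≤ N}).Finite := by
      refine Set.Finite.insert _ ((hE.1 δ N).subset ?_)
      rintro y ⟨h1, h2⟩
      exact ⟨h1.trans hz, h2⟩
    obtain ⟨g, hg, hmax⟩ := Set.exists_max_image _ id hfin ⟨y₀, Set.mem_insert _ _⟩
    refine ⟨g, Or.inr ⟨?_, fun y h1 h2 => hmax y (Set.mem_insert_of_mem _ ⟨h1, h2⟩)⟩⟩
    rcases hg with rfl | hg
    · exact hy₀
    · exact hg.1

end RST_

open RST_ in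
theorem p_RST : T_CLP → T_RST := by
  intro hCLP Ω _ hΩ e t f hE hT hF δ r hr
  by_cases hne : ∃ x, x < δ
  swap
  · push Not at hne
    refine ⟨fun _ _ => 0, fun ξ j h => absurd h (not_lt.2 (hne ξ)),
      fun ζ h => absurd h (not_lt.2 (hne ζ)), fun ξ j h => absurd h (not_lt.2 (hne ξ))⟩
  obtain ⟨x₀, hx₀⟩ := hne
  -- the function `G`
  have hG : ∀ z m, ∃ g, z < δ → ((∀ η, ¬ η < z) ∨
      (g < z ∧ ∀ y, y < z → e δ y ≤ t δ (max (e δ z) m) → y ≤ g)) := by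
    intro z m
    by_cases hz : z < δ
    · obtain ⟨g, hg⟩ := exG hE (δ := δ) (t δ (max (e δ z) m)) z hz
      exact ⟨g, fun _ => hg⟩
    · exact ⟨z, fun h => absurd h hz⟩
  choose G hG using hG
  -- the enumeration
  have hcnt : ((Iio δ) ×ˢ (univ : Set ℕ)).Countable := (hΩ.cnt δ).prod Set.countable_univ
  obtain ⟨x, hx⟩ := hcnt.exists_eq_range ⟨(x₀, 0), hx₀, trivial⟩
  have hxδ : ∀ i, (x i).1 < δ := by
    intro i
    have h1 : x i ∈ (Iio δ) ×ˢ (univ : Set ℕ) := by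
      rw [hx]
      exact ⟨i, rfl⟩
    exact h1.1
  let NN : ℕ → Set (Ω × ℕ) := fun i => Nb (r (x i).1) (G (x i).1 (x i).2) (x i).1 (x i).2
  have hLC : ∀ i ζ k, LC r ζ k (NN i) := by
    intro i ζ k
    have h1 := hr _ (hxδ i)
    refine hCLP Ω r (r (x i).1) _ _ _ ?_ (fun _ _ => rfl) h1.2.1 ζ k
    rcases hG (x i).1 (x i).2 (hxδ i) with h | h
    · exact Or.inr h
    · exact Or.inl h.1
  have hex : ∀ ξ j, ξ < δ → ∃ i, (ξ, j) ∈ NN i := by
    intro ξ j hξ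
    have h1 : (ξ, j) ∈ (Iio δ) ×ˢ (univ : Set ℕ) := ⟨hξ, trivial⟩
    rw [hx] at h1
    obtain ⟨i, hi⟩ := h1
    refine ⟨i, Or.inl ?_⟩
    rw [← hi]
  let ix : Ω → ℕ → ℕ := fun ξ j => sInf {i | (ξ, j) ∈ NN i}
  have hix : ∀ ξ j, ξ < δ → (ξ, j) ∈ NN (ix ξ j) := fun ξ j hξ => Nat.sInf_mem (hex ξ j hξ)
  have hlt : ∀ ξ j i, i < ix ξ j → (ξ, j) ∉ NN i := fun ξ j i hi => Nat.notMem_of_lt_sInf hi
  let s : Ω → ℕ → ℕ := fun ξ j => max (x (ix ξ j)).2 (cc f (x (ix ξ j)).1 δ)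
  -- case distinction for the membership
  have hcase : ∀ ξ j, ξ < δ → (ξ, j) = x (ix ξ j) ∨ (G (x (ix ξ j)).1 (x (ix ξ j)).2 < ξ ∧
      ξ < (x (ix ξ j)).1 ∧ r (x (ix ξ j)).1 ξ j = (x (ix ξ j)).2) := by
    intro ξ j hξ
    rcases hix ξ j hξ with h | h
    · exact Or.inl h
    · exact Or.inr h
  refine ⟨s, ?_, ?_, ?_⟩
  · intro ξ j hξ
    rcases hcase ξ j hξ with h | ⟨-, h2, h3⟩
    · have h1 : (x (ix ξ j)).1 = ξ := by rw [← h]
      have h2 : (x (ix ξ j)).2 = j := by rw [← h]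
      show j ≤ max (x (ix ξ j)).2 (cc f (x (ix ξ j)).1 δ) ∧
        cc f ξ δ ≤ max (x (ix ξ j)).2 (cc f (x (ix ξ j)).1 δ)
      rw [h1, h2]
      exact ⟨le_max_left _ _, le_max_right _ _⟩
    · have h4 := (hr _ (hxδ (ix ξ j))).1 ξ j h2
      rw [h3] at h4
      refine ⟨h4.1.trans (le_max_left _ _), ?_⟩
      refine (hF.cc_tri h2 (hxδ _)).trans ?_
      exact max_le_max h4.2 le_rfl
  · intro ζ hζ k
    by_cases hmin : ∀ η, ¬ η < ζ
    · exact Or.inl hmin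
    right
    push Not at hmin
    obtain ⟨y₀, hy₀⟩ := hmin
    have key : ∀ n : ℕ, ∃ γ, γ < ζ ∧ ∀ i, i < n → ∀ ξ j, γ < ξ → ξ < ζ → r ζ ξ j = k →
        ((ξ, j) ∈ NN i ↔ (ζ, k) ∈ NN i) := by
      intro n
      induction n with
      | zero => exact ⟨y₀, hy₀, fun i hi => absurd hi (Nat.not_lt_zero _)⟩
      | succ n ih =>
        obtain ⟨γ, hγ, h⟩ := ih
        rcases hLC n ζ k with h' | ⟨γ', hγ', h'⟩
        · exact absurd hy₀ (h' y₀)
        · refine ⟨max γ γ', max_lt hγ hγ', fun i hi ξ j h1 h2 h3 => ?_⟩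
          rcases Nat.lt_succ_iff_lt_or_eq.1 hi with hi | rfl
          · exact h i hi ξ j ((le_max_left _ _).trans_lt h1) h2 h3
          · exact h' ξ j ((le_max_right _ _).trans_lt h1) h2 h3
    obtain ⟨γ, hγ, h⟩ := key (ix ζ k + 1)
    refine ⟨γ, hγ, fun ξ j h1 h2 h3 => ?_⟩
    have e1 : ix ξ j = ix ζ k := by
      apply le_antisymm
      · refine Nat.sInf_le ?_
        exact (h (ix ζ k) (Nat.lt_succ_self _) ξ j h1 h2 h3).2 (hix ζ k hζ)
      · by_contra hcon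
        push Not at hcon
        have h4 := (h (ix ξ j) (by omega) ξ j h1 h2 h3).1 (hix ξ j (h2.trans hζ))
        exact hlt ζ k _ hcon h4
    show max (x (ix ξ j)).2 (cc f (x (ix ξ j)).1 δ) = max (x (ix ζ k)).2 (cc f (x (ix ζ k)).1 δ)
    rw [e1]
  · intro ξ j hξ
    rcases hcase ξ j hξ with h | ⟨h1, h2, h3⟩
    · left
      have h1 : (x (ix ξ j)).1 = ξ := by rw [← h]
      have h2 : (x (ix ξ j)).2 = j := by rw [← h]
      show max (x (ix ξ j)).2 (cc f (x (ix ξ j)).1 δ) = max j (cc f ξ δ)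
      rw [h1, h2]
    · right
      refine ⟨(x (ix ξ j)).1, h2, hxδ _, fun η h4 h5 => ?_⟩
      by_contra hcon
      push Not at hcon
      rw [h3] at hcon
      rcases hG (x (ix ξ j)).1 (x (ix ξ j)).2 (hxδ _) with h6 | h6
      · exact h6 ξ h2
      · exact absurd (h6.2 η h5 hcon) (not_le.2 (h1.trans_le h4))

end Pool.Agent.FCB
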