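import Pool.Agent.FCB.Core

/-! Project FCB: the topology (helper32). -/

set_option autoImplicit false

namespace Pool.Agent.FCB

open Set Topology

namespace TOP_

variable {Ω : Type} [LinearOrder Ω]

lemma min_or (ζ : Ω) : (∀ η, ¬ η < ζ) ∨ ∃ γ, γ < ζ := by
  by_cases h : ∃ γ, γ < ζ
  · exact Or.inr h
  · exact Or.inl fun η hη => h ⟨η, hη⟩

/-- the topology -/
@[reducible] def tau (r : Ω → Ω → ℕ → ℕ) : TopologicalSpace (Ω × ℕ) where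
  IsOpen := IsOp r
  isOpen_univ := by
    intro ζ m _
    rcases min_or ζ with h | ⟨γ, h⟩
    · exact Or.inl h
    · exact Or.inr ⟨γ, h, fun _ _ _ _ _ => mem_univ _⟩
  isOpen_inter := by
    intro s t hs ht ζ m hm
    rcases hs ζ m hm.1 with h | ⟨γ₁, h1, h2⟩
    · exact Or.inl h
    rcases ht ζ m hm.2 with h | ⟨γ₂, h3, h4⟩
    · exact Or.inl h
    refine Or.inr ⟨max γ₁ γ₂, max_lt h1 h3, fun ξ j hξ hξ' hr => ⟨?_, ?_⟩⟩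
    · exact h2 ξ j ((le_max_left _ _).trans_lt hξ) hξ' hr
    · exact h4 ξ j ((le_max_right _ _).trans_lt hξ) hξ' hr
  isOpen_sUnion := by
    intro S hS ζ m hm
    obtain ⟨O, hO, hx⟩ := hm
    rcases hS O hO ζ m hx with h | ⟨γ, h1, h2⟩
    · exact Or.inl h
    · exact Or.inr ⟨γ, h1, fun ξ j h3 h4 h5 => ⟨O, hO, h2 ξ j h3 h4 h5⟩⟩

lemma nb_open (hC : T_CLP) {e : Ω → Ω → ℕ} {t f : Ω → ℕ → ℕ} {r : Ω → Ω → ℕ → ℕ}
    (hR : RData e t f r) (γ δ : Ω) (m : ℕ) (h : γ < δ ∨ ∀ η, ¬ η < δ) :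
    IsOp r (Nb (r δ) γ δ m) ∧ IsOp r (Nb (r δ) γ δ m)ᶜ := by
  have h1 := hC Ω r (r δ) γ δ m h (fun _ _ => rfl) (fun ζ hζ => (hR δ).2.1 ζ hζ)
  refine ⟨fun ζ k hk => ?_, fun ζ k hk => ?_⟩
  · rcases h1 ζ k with h2 | ⟨γ', h2, h3⟩
    · exact Or.inl h2
    · exact Or.inr ⟨γ', h2, fun ξ j h4 h5 h6 => (h3 ξ j h4 h5 h6).2 hk⟩
  · rcases h1 ζ k with h2 | ⟨γ', h2, h3⟩
    · exact Or.inl h2
    · exact Or.inr ⟨γ', h2, fun ξ j h4 h5 h6 h7 => hk ((h3 ξ j h4 h5 h6).1 h7)⟩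

lemma mem_nb (s : Ω → ℕ → ℕ) (γ δ : Ω) (m : ℕ) : (δ, m) ∈ Nb s γ δ m := Or.inl rfl

lemma nb_base (r : Ω → Ω → ℕ → ℕ) (d : Ω) (m : ℕ) (O : Set (Ω × ℕ)) (hO : IsOp r O)
    (hx : (d, m) ∈ O) :
    ∃ γ, (γ ≤ d ∧ (γ < d ∨ ∀ η, ¬ η < d)) ∧ Nb (r d) γ d m ⊆ O := by
  rcases hO d m hx with h | ⟨γ, h1, h2⟩
  · refine ⟨d, ⟨le_rfl, Or.inr h⟩, ?_⟩
    rintro p (rfl | ⟨_, h3, _⟩)
    · exact hx
    · exact absurd h3 (h _)
  · refine ⟨γ, ⟨h1.le, Or.inl h1⟩, ?_⟩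
    rintro p (rfl | ⟨h3, h4, h5⟩)
    · exact hx
    · exact h2 p.1 p.2 h3 h4 h5

lemma sep (hC : T_CLP) {e : Ω → Ω → ℕ} {t f : Ω → ℕ → ℕ} {r : Ω → Ω → ℕ → ℕ}
    (hR : RData e t f r) (x y : Ω × ℕ) (hxy : x ≠ y) (hle : x.1 ≤ y.1) :
    ∃ V : Set (Ω × ℕ), x ∈ V ∧ y ∉ V ∧ IsOp r V ∧ IsOp r Vᶜ := by
  obtain ⟨d, m⟩ := x
  obtain ⟨γ, hγ, -⟩ := nb_base r d m univ (tau r).isOpen_univ (mem_univ _)
  obtain ⟨h1, h2⟩ := nb_open hC hR γ d m hγ.2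
  refine ⟨Nb (r d) γ d m, mem_nb _ _ _ _, ?_, h1, h2⟩
  rintro (h | ⟨_, h, _⟩)
  · exact hxy h.symm
  · exact absurd hle (not_le.2 h)

end TOP_

open TOP_ in
/-- TOP -/
theorem p_TOP : T_CLP → T_TOP := by
  intro hC Ω _ hΩ e t f r hD
  obtain ⟨-, -, hF, hR⟩ := hD
  have hR1 : ∀ ζ ξ j, ξ < ζ → j ≤ r ζ ξ j ∧ cc f ξ ζ ≤ r ζ ξ j := fun ζ ξ j h =>
    (hR ζ).1 ξ j h
  refine ⟨tau r, fun O => Iff.rfl, ?_, ?_, ?_, ?_, ?_, ?_⟩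
  · -- Hausdorff
    refine @T2Space.mk _ (tau r) fun x y hxy => ?_
    rcases le_total x.1 y.1 with h | h
    · obtain ⟨V, h1, h2, h3, h4⟩ := sep hC hR x y hxy h
      exact ⟨V, Vᶜ, h3, h4, h1, h2, disjoint_compl_right⟩
    · obtain ⟨V, h1, h2, h3, h4⟩ := sep hC hR y x hxy.symm h
      exact ⟨Vᶜ, V, h4, h3, h2, h1, disjoint_compl_left⟩
  · -- first countable
    refine @FirstCountableTopology.mk _ (tau r) fun x => ?_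
    obtain ⟨d, m⟩ := x
    have hb : (@nhds _ (tau r) (d, m)).HasBasis
        (fun γ : Ω => γ ≤ d ∧ (γ < d ∨ ∀ η, ¬ η < d)) (fun γ => Nb (r d) γ d m) := by
      let _ : TopologicalSpace (Ω × ℕ) := tau r
      refine ⟨fun s => ⟨fun hs => ?_, fun hs => ?_⟩⟩
      · obtain ⟨O, h1, h2, h3⟩ := mem_nhds_iff.1 hs
        obtain ⟨γ, h4, h5⟩ := nb_base r d m O h2 h3
        exact ⟨γ, h4, h5.trans h1⟩
      · obtain ⟨γ, h1, h2⟩ := hs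
        exact mem_nhds_iff.2
          ⟨Nb (r d) γ d m, h2, (nb_open hC hR γ d m h1.2).1, mem_nb _ _ _ _⟩
    have hcb : (@nhds _ (tau r) (d, m)).HasCountableBasis
        (fun γ : Ω => γ ≤ d ∧ (γ < d ∨ ∀ η, ¬ η < d)) (fun γ => Nb (r d) γ d m) :=
      ⟨hb, (hΩ.cntIic d).mono fun γ hγ => hγ.1⟩
    exact hcb.isCountablyGenerated
  · -- clopen base
    rintro ⟨d, m⟩ O hO hx
    obtain ⟨γ, h1, h2⟩ := nb_base r d m O hO hx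
    obtain ⟨h3, h4⟩ := nb_open hC hR γ d m h1.2
    exact ⟨Nb (r d) γ d m, mem_nb _ _ _ _, h2, h3, h4⟩
  · -- initial segments
    intro γ
    refine ⟨?_, ?_, ?_⟩
    · intro ζ m hm
      rcases min_or ζ with h | ⟨γ', h⟩
      · exact Or.inl h
      · exact Or.inr ⟨γ', h, fun ξ j _ h2 _ => h2.le.trans hm⟩
    · intro ζ m hm
      have hm' : γ < ζ := not_le.1 hm
      exact Or.inr ⟨γ, hm', fun ξ j h1 _ _ h3 => absurd h1 (not_lt.2 h3)⟩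
    · have : {p : Ω × ℕ | p.1 ≤ γ} = Iic γ ×ˢ (univ : Set ℕ) := by
        ext p
        simp
      rw [this]
      exact (hΩ.cntIic γ).prod (Set.countable_univ)
  · intro i l ζ m hm
    have hm1 : ¬ (i < m ∨ l ≤ f ζ i) := hm
    push Not at hm1
    rcases min_or ζ with h | ⟨γ', h⟩
    · exact Or.inl h
    · refine Or.inr ⟨γ', h, fun ξ j _ h2 h3 => ?_⟩
      obtain ⟨h4, h5⟩ := hR1 ζ ξ j h2
      rw [h3] at h4 h5
      have h6 := hF.cc_spec h2 (h5.trans hm1.1)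
      intro h7
      have h7' : i < j ∨ l ≤ f ξ i := h7
      rcases h7' with h7' | h7'
      · omega
      · omega
  · intro n ζ m hm
    have hm1 : ¬ n ≤ m := hm
    rcases min_or ζ with h | ⟨γ', h⟩
    · exact Or.inl h
    · refine Or.inr ⟨γ', h, fun ξ j _ h2 h3 h4 => ?_⟩
      obtain ⟨h5, -⟩ := hR1 ζ ξ j h2
      rw [h3] at h5
      have h4' : n ≤ j := h4
      omega

end Pool.Agent.FCB
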