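import Pool.Agent.FCB.Core

set_option autoImplicit false

namespace Pool.Agent.FCB

open Set

theorem p_UNB : T_UNB := by
  intro Ω _ h g S hS
  obtain ⟨c₀, hc₀⟩ := h.exists_gt hS
  have hstep : ∀ c : Ω, ∃ d : Ω, c < d ∧ ∀ a, a ≤ c → g a < d := by
    intro c
    have hT : (insert c (g '' Iic c)).Countable := ((h.cntIic c).image g).insert c
    obtain ⟨d, hd⟩ := h.exists_gt hT
    exact ⟨d, hd c (mem_insert _ _), fun a ha =>
      hd (g a) (mem_insert_of_mem _ (mem_image_of_mem g ha))⟩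
  choose s hs1 hs2 using hstep
  let c : ℕ → Ω := fun n => s^[n] c₀
  have hc0 : c 0 = c₀ := rfl
  have hcs : ∀ n, c (n + 1) = s (c n) := fun n => Function.iterate_succ_apply' s n c₀
  obtain ⟨u, hu⟩ := h.exists_gt_range c
  have hwf : WellFounded ((· < ·) : Ω → Ω → Prop) := h.wf.wf
  have hne : ({x : Ω | ∀ n, c n ≤ x} : Set Ω).Nonempty := ⟨u, fun n => (hu n).le⟩
  refine ⟨hwf.min _ hne, fun x hx => ?_, fun a ha => ?_⟩
  · have h1 : c 0 ≤ hwf.min _ hne := hwf.min_mem _ hne 0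
    exact (hc₀ x hx).trans_le (hc0 ▸ h1)
  · have h1 : ¬ ∀ n, c n ≤ a := fun h2 => hwf.not_lt_min {x : Ω | ∀ n, c n ≤ x} h2 ha
    push Not at h1
    obtain ⟨n, hn⟩ := h1
    have h2 : c (n + 1) ≤ hwf.min _ hne := hwf.min_mem _ hne (n + 1)
    rw [hcs] at h2
    exact (hs2 (c n) a hn.le).trans_le h2

end Pool.Agent.FCB
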