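import Pool.Agent.FCB.Core

/-!
# FCB-WIT: witnesses exist
-/

set_option autoImplicit false

namespace Pool.Agent.FCB

open Set

theorem p_WIT : T_WIT := by
  intro Ω _ e t f he hf A γ β δ₀ Q hR hG hγ hβ hQ k
  classical
  have hfin : {ξ | ξ < δ₀ ∧ e δ₀ ξ ≤ k}.Finite := he.1 δ₀ k
  obtain ⟨γ', h1, h2, h3⟩ : ∃ γ', γ' < δ₀ ∧ γ ≤ γ' ∧
      ∀ η, η < δ₀ → e δ₀ η < k → η ≤ γ' := by
    have hne : (insert γ hfin.toFinset).Nonempty := Finset.insert_nonempty _ _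
    refine ⟨(insert γ hfin.toFinset).max' hne, ?_, ?_, ?_⟩
    · rw [Finset.max'_lt_iff]
      intro y hy
      rcases Finset.mem_insert.1 hy with rfl | hy
      · exact hγ
      · exact ((hfin.mem_toFinset).1 hy).1
    · exact Finset.le_max' _ _ (Finset.mem_insert_self _ _)
    · intro η h4 h5
      exact Finset.le_max' _ _
        (Finset.mem_insert_of_mem ((hfin.mem_toFinset).2 ⟨h4, h5.le⟩))
  obtain ⟨i, hi, hinf⟩ := hR k γ' β h1 hβ hG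
  obtain ⟨n, ⟨ξ, hξA, hξ1, hξ2, hξ3, hξ4⟩, hn⟩ := hinf.exists_gt (Q.sup fun ζ => f ζ i)
  refine ⟨ξ, hξA, h2.trans_lt hξ1, hξ2, fun η h4 h5 => (h3 η h4 h5).trans_lt hξ1, hξ3,
    fun ζ hζ => ?_⟩
  have h6 : f ζ i ≤ Q.sup fun ζ => f ζ i := Finset.le_sup (f := fun ζ => f ζ i) hζ
  have h7 : f ζ i < f ξ i := by
    rw [hξ4]
    exact h6.trans_lt hn
  have h8 := hf.lt_cc (hξ2.trans_le (hQ ζ hζ)) h7
  omega

end Pool.Agent.FCB
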