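import Pool.Agent.FCB.Main
import Pool.Agent.FCB.EXE
import Pool.Agent.FCB.EXT
import Pool.Agent.FCB.EXF
import Pool.Agent.FCB.CLP
import Pool.Agent.FCB.RST
import Pool.Agent.FCB.EXR
import Pool.Agent.FCB.GOO
import Pool.Agent.FCB.RFL
import Pool.Agent.FCB.WIT
import Pool.Agent.FCB.PSI
import Pool.Agent.FCB.FIX
import Pool.Agent.FCB.UNB
import Pool.Agent.FCB.CAP
import Pool.Agent.FCB.LEV
import Pool.Agent.FCB.MEET
import Pool.Agent.FCB.TOP
import Pool.Agent.FCB.NRM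
import Pool.Agent.FCB.FCT
import Pool.Agent.FCB.DWK
import Pool.Agent.FCB.OMX

/-! Project FCB: everything together. -/

set_option autoImplicit false

namespace Pool.Agent.FCB

theorem p_FIN : T_FIN :=
  have hCAP : T_CAP := p_CAP (p_RFL p_UNB) (p_PSI p_WIT) p_FIX
  have hLEV : T_LEV := p_LEV hCAP p_UNB p_GOO
  have hMEET : T_MEET := p_MEET hLEV hCAP p_UNB p_GOO
  main_FIN p_EXE p_EXT p_EXF (p_EXR (p_RST p_CLP)) (p_TOP p_CLP) hMEET p_NRM p_FCT p_DWK p_OMX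

end Pool.Agent.FCB
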