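import Pool.Agent.FCE.Meet

/-! The case `b > omega_1` (helper34, helper87): a strictly increasing chain of type `omega_2`
modulo finite sets and the space built from it. -/

set_option autoImplicit false

namespace Pool.Agent.FCB

open Set Cardinal Filter Pool.Agent.FCE

/-- A family of more than `ℵ₁` many functions is needed for unboundedness: then there is a chain. -/
lemma chain_of_bounded
    (hb : ∀ F : Set (ℕ → ℕ), #F ≤ Cardinal.aleph 1 →
      ∃ g : ℕ → ℕ, ∀ f ∈ F, ∀ᶠ n in atTop, f n ≤ g n) :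
    ∃ A : (Cardinal.aleph.{0} 2).ord.ToType → Set ℕ,
      ∀ a b, a < b → (A a \ A b).Finite ∧ (A b \ A a).Infinite := by
  classical
  have hsm : ∀ (a : I) (F : (x : I) → x < a → (ℕ → ℕ)),
      #(range (fun x : Iio a => F x.1 x.2) : Set (ℕ → ℕ)) ≤ Cardinal.aleph 1 := fun a F =>
    Cardinal.mk_range_le.trans (I_small a)
  let G : (a : I) → ((x : I) → x < a → (ℕ → ℕ)) → (ℕ → ℕ) :=
    fun a F n => (hb _ (hsm a F)).choose n + 1
  let f : I → (ℕ → ℕ) := WellFounded.fix (wellFounded_lt (α := I)) G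
  have hf : ∀ a b, a < b → ∀ᶠ n in atTop, f a n < f b n := by
    intro a b hab
    have h1 : f b = G b (fun x _ => f x) := WellFounded.fix_eq _ _ _
    have h2 := (hb _ (hsm b (fun x _ => f x))).choose_spec (f a) ⟨⟨a, hab⟩, rfl⟩
    filter_upwards [h2] with n hn
    rw [h1]
    exact Nat.lt_succ_of_le hn
  refine ⟨fun a => {n | n.unpair.2 ≤ f a n.unpair.1}, fun a b hab => ?_⟩
  obtain ⟨N, hN⟩ := eventually_atTop.1 (hf a b hab)
  constructor
  · have hfin : ((fun z : ℕ × ℕ => Nat.pair z.1 z.2) ''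
        (⋃ i ∈ Iio N, (fun l => (i, l)) '' Iic (f a i))).Finite := by
      refine Set.Finite.image _ ?_
      exact (Set.finite_Iio N).biUnion fun i _ => (Set.finite_Iic _).image _
    refine hfin.subset ?_
    rintro n ⟨h1, h2⟩
    have h3 : n.unpair.1 < N := by
      by_contra hcon
      push Not at hcon
      exact h2 (le_trans h1 (hN _ hcon).le)
    refine ⟨(n.unpair.1, n.unpair.2), mem_biUnion h3 ⟨_, h1, rfl⟩, ?_⟩
    exact Nat.pair_unpair n
  · have hinj : Function.Injective (fun i : ℕ => Nat.pair (N + i) (f b (N + i))) := by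
      intro i j hij
      have h := congrArg (fun n => n.unpair.1) hij
      simp only [Nat.unpair_pair] at h
      omega
    refine (Set.infinite_range_of_injective hinj).mono ?_
    rintro _ ⟨i, rfl⟩
    constructor
    · simp only [mem_setOf_eq, Nat.unpair_pair]
      exact le_refl _
    · simp only [mem_setOf_eq, Nat.unpair_pair]
      exact not_le.2 (hN _ (Nat.le_add_right _ _))


/-- The conclusion in the case `b > omega_1`. -/
theorem case_large
    (hb : ∀ F : Set (ℕ → ℕ), #F ≤ Cardinal.aleph 1 →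
      ∃ g : ℕ → ℕ, ∀ f ∈ F, ∀ᶠ n in atTop, f n ≤ g n) :
    ∃ (X : Type) (_ : TopologicalSpace X), T2Space X ∧ NormalSpace X ∧
      (∀ f : X → ℝ, Continuous f → (Set.range f).Countable) ∧
      ∃ F : ℕ → Set X, (∀ n, IsClosed (F n)) ∧
        ∀ D : Set X, D.Countable →
          ∃ S : Set ℕ, (⋂ n ∈ S, F n).Nonempty ∧ D ∩ ⋂ n ∈ S, F n = ∅ := by
  obtain ⟨A, hA⟩ := chain_of_bounded hb
  exact ⟨Sp A, topSp A, inferInstance, normal hA, fcount hA, Fs A, Fs_closed hA, not_dense hA⟩

end Pool.Agent.FCB
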