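import Pool.Agent.FCB.Targets

/-! Basic lemmas for project FCB. -/

set_option autoImplicit false

namespace Pool.Agent.FCB

open Set

variable {Ω : Type} [LinearOrder Ω]

lemma OM.cntIic (h : OM Ω) (a : Ω) : (Iic a).Countable := by
  have h1 : Iic a = insert a (Iio a) := by
    ext x
    simp only [mem_Iic, mem_insert_iff, mem_Iio]
    exact le_iff_eq_or_lt
  rw [h1]
  exact (h.cnt a).insert a

/-- A countable set is strictly bounded. -/
lemma OM.exists_gt (h : OM Ω) {S : Set Ω} (hS : S.Countable) : ∃ δ, ∀ x ∈ S, x < δ := by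
  by_contra hcon
  push Not at hcon
  have h1 : (univ : Set Ω) ⊆ ⋃ x ∈ S, Iic x := by
    intro δ _
    obtain ⟨x, hx, hle⟩ := hcon δ
    exact mem_biUnion hx hle
  have h2 : (univ : Set Ω).Countable := (hS.biUnion fun x _ => h.cntIic x).mono h1
  have h3 := h.unc
  rw [Set.countable_univ_iff] at h2
  exact (not_countable_iff.2 h3) h2

lemma OM.exists_gt1 (h : OM Ω) (a : Ω) : ∃ b, a < b := by
  obtain ⟨b, hb⟩ := h.exists_gt (Set.countable_singleton a)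
  exact ⟨b, hb a rfl⟩

/-- A countable family is strictly bounded. -/
lemma OM.exists_gt_range (h : OM Ω) {ι : Type} [Countable ι] (x : ι → Ω) : ∃ δ, ∀ i, x i < δ := by
  obtain ⟨δ, hδ⟩ := h.exists_gt (Set.countable_range x)
  exact ⟨δ, fun i => hδ _ ⟨i, rfl⟩⟩

/-- The part of an uncountable set above a point is uncountable. -/
lemma OM.unc_gt (h : OM Ω) {A : Set Ω} (hA : ¬ A.Countable) (γ : Ω) :
    ¬ {ξ | ξ ∈ A ∧ γ < ξ}.Countable := by
  intro hc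
  refine hA ((hc.union (h.cntIic γ)).mono ?_)
  intro x hx
  rcases lt_or_ge γ x with h1 | h1
  · exact Or.inl ⟨hx, h1⟩
  · exact Or.inr h1

lemma OM.exists_mem_gt (h : OM Ω) {A : Set Ω} (hA : ¬ A.Countable) (γ : Ω) :
    ∃ ξ ∈ A, γ < ξ := by
  by_contra hcon
  push Not at hcon
  exact hA ((h.cntIic γ).mono fun x hx => hcon x hx)

/-- An unbounded set is uncountable. -/
lemma OM.unc_of_unbounded (h : OM Ω) {A : Set Ω} (hA : ∀ γ, ∃ ξ ∈ A, γ < ξ) :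
    ¬ A.Countable := by
  intro hc
  obtain ⟨δ, hδ⟩ := h.exists_gt hc
  obtain ⟨ξ, hξ, hlt⟩ := hA δ
  exact absurd (hδ ξ hξ) (not_lt.2 hlt.le)

/-- Recursion with choice: if `P δ r s` depends only on `r` below `δ` and each step is possible,
then there is a function satisfying all conditions. -/
lemma exists_rec (hwf : WellFoundedLT Ω) {S : Type} (s₀ : S) (P : Ω → (Ω → S) → S → Prop)
    (hloc : ∀ δ r r' s, (∀ δ', δ' < δ → r δ' = r' δ') → P δ r s → P δ r' s)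
    (hstep : ∀ δ r, (∀ δ', δ' < δ → P δ' r (r δ')) → ∃ s, P δ r s) :
    ∃ r : Ω → S, ∀ δ, P δ r (r δ) := by
  classical
  let G : (δ : Ω) → ((x : Ω) → x < δ → S) → S := fun δ F =>
    if h : ∃ s, P δ (fun x => if hx : x < δ then F x hx else s₀) s then h.choose else s₀
  let r : Ω → S := WellFounded.fix (wellFounded_lt (α := Ω)) G
  refine ⟨r, fun δ => ?_⟩
  induction δ using WellFoundedLT.induction with
  | _ δ ih =>
    have h1 : r δ = G δ (fun x _ => r x) := WellFounded.fix_eq _ _ _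
    obtain ⟨s, hs⟩ := hstep δ r ih
    have h2 : ∃ s, P δ (fun x => if hx : x < δ then r x else s₀) s :=
      ⟨s, hloc δ r _ s (fun δ' hδ' => by simp [hδ']) hs⟩
    have h3 : r δ = h2.choose := by
      rw [h1]
      exact dif_pos h2
    rw [h3]
    exact hloc δ _ r _ (fun δ' hδ' => by simp [hδ']) h2.choose_spec

/-! ### The numbers `cc` -/

omit [LinearOrder Ω] in
lemma cc_le {f : Ω → ℕ → ℕ} {ξ δ : Ω} {m : ℕ} (h : ∀ i, m ≤ i → f ξ i ≤ f δ i) :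
    cc f ξ δ ≤ m := Nat.sInf_le h

omit [LinearOrder Ω] in
lemma cc_spec {f : Ω → ℕ → ℕ} {ξ δ : Ω} (hex : ∃ m, ∀ i, m ≤ i → f ξ i ≤ f δ i) {i : ℕ}
    (hi : cc f ξ δ ≤ i) : f ξ i ≤ f δ i :=
  (Nat.sInf_mem (s := {m | ∀ i, m ≤ i → f ξ i ≤ f δ i}) hex) i hi

lemma FData.ex_le {e : Ω → Ω → ℕ} {t f : Ω → ℕ → ℕ} (hf : FData e t f) {ξ δ : Ω} (h : ξ < δ) :
    ∃ m, ∀ i, m ≤ i → f ξ i ≤ f δ i := by
  obtain ⟨m, hm⟩ := hf.2.1 ξ δ h
  exact ⟨m, fun i hi => (hm i hi).le⟩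

lemma FData.cc_spec {e : Ω → Ω → ℕ} {t f : Ω → ℕ → ℕ} (hf : FData e t f) {ξ δ : Ω} (h : ξ < δ)
    {i : ℕ} (hi : cc f ξ δ ≤ i) : f ξ i ≤ f δ i :=
  FCB.cc_spec (hf.ex_le h) hi

/-- If `f ξ i > f δ i` then `i < cc f ξ δ`. -/
lemma FData.lt_cc {e : Ω → Ω → ℕ} {t f : Ω → ℕ → ℕ} (hf : FData e t f) {ξ δ : Ω} (h : ξ < δ)
    {i : ℕ} (hi : f δ i < f ξ i) : i < cc f ξ δ := by
  by_contra hcon
  exact absurd (hf.cc_spec h (not_lt.1 hcon)) (not_le.2 hi)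

lemma FData.cc_tri {e : Ω → Ω → ℕ} {t f : Ω → ℕ → ℕ} (hf : FData e t f) {ξ ζ δ : Ω} (h : ξ < ζ)
    (h' : ζ < δ) : cc f ξ δ ≤ max (cc f ξ ζ) (cc f ζ δ) :=
  cc_le fun _ hi => (hf.cc_spec h ((le_max_left _ _).trans hi)).trans
    (hf.cc_spec h' ((le_max_right _ _).trans hi))

omit [LinearOrder Ω] in
/-- The value just below `cc` violates the inequality. -/
lemma cc_pred {f : Ω → ℕ → ℕ} {ξ δ : Ω} {m : ℕ} (h : cc f ξ δ = m + 1)
    (hex : ∃ m, ∀ i, m ≤ i → f ξ i ≤ f δ i) : f δ m < f ξ m := by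
  by_contra hcon
  push Not at hcon
  have h1 : cc f ξ δ ≤ m := cc_le fun i hi => by
    rcases Nat.eq_or_lt_of_le hi with rfl | h2
    · exact hcon
    · exact cc_spec hex (by omega)
  omega

/-! ### Closed sets -/

/-- At a point where `A` is captured, closed sets containing `A × {j}` contain a new point. -/
lemma Capt.mem {f : Ω → ℕ → ℕ} {r : Ω → Ω → ℕ → ℕ} {A : Set Ω} {δ : Ω} (hc : Capt f r A δ)
    {E : Set (Ω × ℕ)} (hE : IsOp r Eᶜ) {j : ℕ} (hA : ∀ ξ ∈ A, (ξ, j) ∈ E) {β : Ω} (hβ : β < δ)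
    (hg : Good f A β) : (δ, max j (cc f β δ)) ∈ E := by
  by_contra hcon
  rcases hE δ _ hcon with h | ⟨γ, hγ, h⟩
  · exact h β hβ
  · obtain ⟨ξ, hξA, h1, h2, h3, h4⟩ := hc β hβ hg γ hγ
    exact h ξ j h1 h2 (by rw [h4 j, h3]) (hA ξ hξA)

end Pool.Agent.FCB
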