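import Pool.Agent.FCB.Core

/-! Composition of the targets of project FCB. -/

set_option autoImplicit false

namespace Pool.Agent.FCB

open Set Topology

theorem main_FIN (hEXE : T_EXE) (hEXT : T_EXT) (hEXF : T_EXF) (hEXR : T_EXR) (hTOP : T_TOP)
    (hMEET : T_MEET) (hNRM : T_NRM) (hFCT : T_FCT) (hDWK : T_DWK) (hOMX : T_OMX) : T_FIN := by
  classical
  intro hb
  obtain ⟨hΩ, hF⟩ := hOMX
  obtain ⟨F, hF⟩ := hF hb
  obtain ⟨e, he⟩ := hEXE _ hΩ
  obtain ⟨t, ht⟩ := hEXT _ hΩ ⟨F, hF⟩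
  obtain ⟨f, hf⟩ := hEXF _ hΩ e t he ht
  obtain ⟨r, hr⟩ := hEXR _ hΩ e t f he ht hf
  have hD : Data e t f r := ⟨he, ht, hf, hr⟩
  obtain ⟨τ, hop, hT2, hFC, hbase, hini, hFcl, hDcl⟩ := hTOP _ hΩ e t f r hD
  have hcard : Cardinal.mk ((Cardinal.aleph.{0} 1).ord.ToType × ℕ) = Cardinal.aleph 1 := by
    rw [Cardinal.mk_prod, Cardinal.lift_id, Cardinal.lift_id, Cardinal.mk_ord_toType,
      Cardinal.mk_nat]
    exact Cardinal.mul_aleph0_eq (Cardinal.aleph0_le_aleph 1)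
  have hunc : Uncountable ((Cardinal.aleph.{0} 1).ord.ToType × ℕ) := by
    rw [← Cardinal.aleph0_lt_mk_iff, hcard]
    exact Cardinal.aleph0_lt_aleph_one
  have hmeet : ∀ E₁ E₂ : Set ((Cardinal.aleph.{0} 1).ord.ToType × ℕ), IsClosed[τ] E₁ →
      IsClosed[τ] E₂ → ¬ E₁.Countable → ¬ E₂.Countable → (E₁ ∩ E₂).Nonempty := by
    intro E₁ E₂ h1 h2
    exact hMEET _ hΩ e t f r hD E₁ E₂ ((hop _).1 h1.isOpen_compl) ((hop _).1 h2.isOpen_compl)
  refine ⟨_, τ, hT2, ?_, hFC, ?_, hcard, ?_, ?_, ?_⟩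
  · refine hNRM _ ?_ ?_ hmeet
    · intro x O hO hx
      obtain ⟨V, h1, h2, h3, h4⟩ := hbase x O hO hx
      exact ⟨V, h1, h2, ⟨h4⟩, h3⟩
    · intro S hS
      obtain ⟨γ, hγ⟩ := hΩ.exists_gt (hS.image Prod.fst)
      refine ⟨{p | p.1 ≤ γ}, ⟨⟨(hini γ).2.1⟩, (hini γ).1⟩, (hini γ).2.2, ?_⟩
      intro p hp
      exact (hγ _ ⟨p, hp, rfl⟩).le
  · intro x
    exact ⟨{p | p.1 ≤ x.1}, le_refl x.1, (hini x.1).1, (hini x.1).2.2⟩
  · exact hFCT _ hmeet
  · refine ⟨fun n => {p | n.unpair.1 < p.2 ∨ n.unpair.2 ≤ f p.1 n.unpair.1}, fun n => ?_, ?_⟩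
    · exact ⟨hFcl _ _⟩
    · intro D hDc
      obtain ⟨δ, hδ⟩ := hΩ.exists_gt (hDc.image Prod.fst)
      refine ⟨{n | n.unpair.2 ≤ f δ n.unpair.1}, ⟨(δ, 0), ?_⟩, ?_⟩
      · rw [mem_iInter₂]
        intro n hn
        exact Or.inr hn
      · rw [eq_empty_iff_forall_notMem]
        rintro ⟨ξ, j⟩ ⟨hp, hp2⟩
        have h1 : ξ < δ := hδ _ ⟨_, hp, rfl⟩
        obtain ⟨m, hm⟩ := hf.2.1 ξ δ h1
        rw [mem_iInter₂] at hp2
        have h2 := hp2 (Nat.pair (max m j) (f δ (max m j))) (by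
          simp only [mem_setOf_eq, Nat.unpair_pair]
          exact le_refl _)
        simp only [mem_setOf_eq, Nat.unpair_pair] at h2
        have h3 := hm (max m j) (le_max_left _ _)
        rcases h2 with h2 | h2
        · exact absurd (le_max_right m j) (not_le.2 h2)
        · omega
  · refine ⟨fun n => {p | n ≤ p.2}, fun n => ⟨hDcl n⟩, fun n p hp => ?_, ?_, ?_⟩
    · simp only [mem_setOf_eq] at hp ⊢
      omega
    · rw [eq_empty_iff_forall_notMem]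
      intro p hp
      rw [mem_iInter] at hp
      have h1 := hp (p.2 + 1)
      simp only [mem_setOf_eq] at h1
      omega
    · intro U hU hDU
      refine hDWK _ hunc hmeet (fun n => {p | n ≤ p.2}) (fun n => ⟨hDcl n⟩) (fun n hc => ?_) U hU hDU
      have h2 : ((fun x : (Cardinal.aleph.{0} 1).ord.ToType => (x, n)) '' univ).Countable :=
        hc.mono (by
          rintro _ ⟨x, -, rfl⟩
          exact le_refl n)
      have h3 : (univ : Set (Cardinal.aleph.{0} 1).ord.ToType).Countable :=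
        (Set.countable_of_injective_of_countable_image
          (fun a _ b _ h => (Prod.mk.inj h).1) h2)
      rw [Set.countable_univ_iff] at h3
      exact (not_countable_iff.2 hΩ.unc) h3

end Pool.Agent.FCB
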