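import Pool.Agent.FCB.Core

/-! FCB target NRM: normality criterion. -/

set_option autoImplicit false

namespace Pool.Agent.FCB

open Set Topology

theorem NRM_sep {X : Type} [TopologicalSpace X] [RegularSpace X] {E₁ E₂ Y : Set X}
    (h₁ : IsClosed E₁) (h₂ : IsClosed E₂) (hd : Disjoint E₁ E₂) (hY : IsClopen Y)
    (hYc : Y.Countable) (hE : E₁ ⊆ Y) : SeparatedNhds E₁ E₂ := by
  have : Countable Y := hYc.to_subtype
  have : NormalSpace Y := inferInstance
  have hd' : Disjoint ((Subtype.val : Y → X) ⁻¹' E₁) ((Subtype.val : Y → X) ⁻¹' E₂) :=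
    hd.preimage _
  obtain ⟨U, V, hU, hV, hEU, hEV, hUV⟩ := normal_separation
    (h₁.preimage continuous_subtype_val) (h₂.preimage continuous_subtype_val) hd'
  have hop : IsOpenMap (Subtype.val : Y → X) := hY.isOpen.isOpenMap_subtype_val
  refine ⟨Subtype.val '' U, Subtype.val '' V ∪ Yᶜ, hop U hU, (hop V hV).union hY.compl.isOpen,
    ?_, ?_, ?_⟩
  · intro x hx
    exact ⟨⟨x, hE hx⟩, hEU hx, rfl⟩
  · intro x hx
    by_cases hxY : x ∈ Y
    · exact Or.inl ⟨⟨x, hxY⟩, hEV hx, rfl⟩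
    · exact Or.inr hxY
  · rw [Set.disjoint_left]
    rintro _ ⟨y, hy, rfl⟩ (⟨z, hz, hzy⟩ | hn)
    · have h3 : z = y := Subtype.ext hzy
      subst h3
      exact (Set.disjoint_left.1 hUV hy) hz
    · exact hn y.2

theorem p_NRM : T_NRM := by
  intro X _ _ hbase hcount hmeet
  have : RegularSpace X := by
    refine RegularSpace.of_exists_mem_nhds_isClosed_subset ?_
    intro x s hs
    obtain ⟨O, hOs, hO, hxO⟩ := mem_nhds_iff.1 hs
    obtain ⟨V, hxV, hVO, hV⟩ := hbase x O hO hxO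
    exact ⟨V, hV.isOpen.mem_nhds hxV, hV.isClosed, hVO.trans hOs⟩
  refine ⟨fun E₁ E₂ h₁ h₂ hd => ?_⟩
  by_cases hc₁ : E₁.Countable
  · obtain ⟨Y, hY, hYc, hE⟩ := hcount E₁ hc₁
    exact NRM_sep h₁ h₂ hd hY hYc hE
  · by_cases hc₂ : E₂.Countable
    · obtain ⟨Y, hY, hYc, hE⟩ := hcount E₂ hc₂
      exact (NRM_sep h₂ h₁ hd.symm hY hYc hE).symm
    · exact absurd (hmeet E₁ E₂ h₁ h₂ hc₁ hc₂) (by
        rw [Set.not_nonempty_iff_eq_empty]
        exact hd.inter_eq)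

end Pool.Agent.FCB
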