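import Mathlib

/-!
# Project FCB (problem MP_058773_gt, and small Dowker spaces)

If some family of at most `aleph_1` functions from `ℕ` to `ℕ` is unbounded modulo finite sets
(`b = omega_1`), then there is a Hausdorff topology on `omega_1 × ℕ` which is first countable,
locally countable, normal, in which any two uncountable closed sets meet, and which is not
exponentially separable.

Complete proofs: `Pool/Agent/FCB/Blueprint.lean.txt`.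
-/

set_option autoImplicit false

namespace Pool.Agent.FCB

open Set Topology

/-- `Ω` is well ordered of order type `omega_1`. -/
structure OM (Ω : Type) [LinearOrder Ω] : Prop where
  /-- the order is a well order -/
  wf : WellFoundedLT Ω
  /-- proper initial segments are countable -/
  cnt : ∀ a : Ω, (Iio a).Countable
  /-- the whole is uncountable -/
  unc : Uncountable Ω

variable {Ω : Type} [LinearOrder Ω]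

/-- Coherent finite-to-one functions. -/
def EData (e : Ω → Ω → ℕ) : Prop :=
  (∀ (δ : Ω) (n : ℕ), {ξ | ξ < δ ∧ e δ ξ ≤ n}.Finite) ∧
  (∀ δ δ' : Ω, δ < δ' → {ξ | ξ < δ ∧ e δ ξ ≠ e δ' ξ}.Finite)

/-- An increasing unbounded chain of monotone functions tending to infinity. -/
def TData (t : Ω → ℕ → ℕ) : Prop :=
  (∀ δ, Monotone (t δ)) ∧ (∀ δ n, ∃ i, n ≤ t δ i) ∧
  (∀ ξ δ, ξ < δ → ∃ m, ∀ i, m ≤ i → t ξ i ≤ t δ i) ∧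
  (∀ g : ℕ → ℕ, ∃ δ, ∀ m, ∃ i, m ≤ i ∧ g i < t δ i)

/-- The functions `f δ`. -/
def FData (e : Ω → Ω → ℕ) (t f : Ω → ℕ → ℕ) : Prop :=
  (∀ ξ δ i, ξ < δ → e δ ξ ≤ t δ i → f ξ i < f δ i) ∧
  (∀ ξ δ, ξ < δ → ∃ m, ∀ i, m ≤ i → f ξ i < f δ i) ∧
  (∀ A : Set Ω, ¬ A.Countable → ∀ k, ∃ i, k ≤ i ∧ {n | ∃ ξ ∈ A, f ξ i = n}.Infinite)

/-- From where on `f ξ ≤ f δ`. -/
noncomputable def cc (f : Ω → ℕ → ℕ) (ξ δ : Ω) : ℕ := sInf {m | ∀ i, m ≤ i → f ξ i ≤ f δ i}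

/-- Coherence of the neighbourhood functions for `ζ < δ`. Here `r δ ξ j` is the level at which
the point `(ξ, j)` is seen from `δ`, and `s` is to be `r δ`. -/
def Coh (r : Ω → Ω → ℕ → ℕ) (s : Ω → ℕ → ℕ) (ζ : Ω) : Prop :=
  ∀ m, (∀ η, ¬ η < ζ) ∨
    ∃ γ, γ < ζ ∧ ∀ ξ j, γ < ξ → ξ < ζ → r ζ ξ j = m → s ξ j = s ζ m

/-- The conditions on `s = r δ`, given `r` below `δ`. -/
def RAt (e : Ω → Ω → ℕ) (t f : Ω → ℕ → ℕ) (δ : Ω) (r : Ω → Ω → ℕ → ℕ) (s : Ω → ℕ → ℕ) : Prop :=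
  (∀ ξ j, ξ < δ → j ≤ s ξ j ∧ cc f ξ δ ≤ s ξ j) ∧
  (∀ ζ, ζ < δ → Coh r s ζ) ∧
  (∀ ξ j, ξ < δ → s ξ j = max j (cc f ξ δ) ∨
    ∃ ζ, ξ < ζ ∧ ζ < δ ∧ ∀ η, ξ ≤ η → η < ζ → t δ (max (e δ ζ) (r ζ ξ j)) < e δ η)

/-- The neighbourhood functions. -/
def RData (e : Ω → Ω → ℕ) (t f : Ω → ℕ → ℕ) (r : Ω → Ω → ℕ → ℕ) : Prop :=
  ∀ δ, RAt e t f δ r (r δ)

/-- The basic neighbourhood of `(δ, m)` above `γ`, where `s = r δ`. -/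
def Nb (s : Ω → ℕ → ℕ) (γ δ : Ω) (m : ℕ) : Set (Ω × ℕ) :=
  {p | p = (δ, m) ∨ (γ < p.1 ∧ p.1 < δ ∧ s p.1 p.2 = m)}

/-- Membership in `S` is constant near `(ζ, k)`. -/
def LC (r : Ω → Ω → ℕ → ℕ) (ζ : Ω) (k : ℕ) (S : Set (Ω × ℕ)) : Prop :=
  (∀ η, ¬ η < ζ) ∨
    ∃ γ, γ < ζ ∧ ∀ ξ j, γ < ξ → ξ < ζ → r ζ ξ j = k → ((ξ, j) ∈ S ↔ (ζ, k) ∈ S)

/-- Open sets of the space. -/
def IsOp (r : Ω → Ω → ℕ → ℕ) (O : Set (Ω × ℕ)) : Prop :=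
  ∀ ζ m, (ζ, m) ∈ O → (∀ η, ¬ η < ζ) ∨
    ∃ γ, γ < ζ ∧ ∀ ξ j, γ < ξ → ξ < ζ → r ζ ξ j = m → (ξ, j) ∈ O

/-- `β` is a good point of `A`. -/
def Good (f : Ω → ℕ → ℕ) (A : Set Ω) (β : Ω) : Prop :=
  β ∈ A ∧ ∀ k : ℕ, ¬ {ξ | ξ ∈ A ∧ ∀ i, i < k → f ξ i = f β i}.Countable

/-- `δ₀` reflects `A`. -/
def Rfl (f : Ω → ℕ → ℕ) (A : Set Ω) (δ₀ : Ω) : Prop :=
  ∀ (k : ℕ) (γ β : Ω), γ < δ₀ → β < δ₀ → Good f A β → ∃ i, k ≤ i ∧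
    {n | ∃ ξ ∈ A, γ < ξ ∧ ξ < δ₀ ∧ (∀ i', i' < k → f ξ i' = f β i') ∧ f ξ i = n}.Infinite

/-- `ξ` is a witness of order `k` for `γ, β, δ₀, Q`. -/
def Wit (e : Ω → Ω → ℕ) (f : Ω → ℕ → ℕ) (A : Set Ω) (γ β δ₀ : Ω) (Q : Finset Ω) (k : ℕ)
    (ξ : Ω) : Prop :=
  ξ ∈ A ∧ γ < ξ ∧ ξ < δ₀ ∧ (∀ η, η < δ₀ → e δ₀ η < k → η < ξ) ∧
    (∀ i, i < k → f ξ i = f β i) ∧ ∀ ζ ∈ Q, k ≤ cc f ξ ζ

/-- Everything constructed. -/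
def Data (e : Ω → Ω → ℕ) (t f : Ω → ℕ → ℕ) (r : Ω → Ω → ℕ → ℕ) : Prop :=
  EData e ∧ TData t ∧ FData e t f ∧ RData e t f r

/-- The capturing property of `δ` for `A`. -/
def Capt (f : Ω → ℕ → ℕ) (r : Ω → Ω → ℕ → ℕ) (A : Set Ω) (δ : Ω) : Prop :=
  ∀ β, β < δ → Good f A β → ∀ γ, γ < δ → ∃ ξ ∈ A, γ < ξ ∧ ξ < δ ∧ cc f ξ δ = cc f β δ ∧
    ∀ j, r δ ξ j = max j (cc f ξ δ)

/-! ### Targets -/

/-- EXE: coherent finite-to-one functions exist. -/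
def T_EXE : Prop := ∀ (Ω : Type) [LinearOrder Ω], OM Ω → ∃ e : Ω → Ω → ℕ, EData e

/-- EXT: the chain `t`. -/
def T_EXT : Prop := ∀ (Ω : Type) [LinearOrder Ω], OM Ω →
  (∃ F : Ω → ℕ → ℕ, ∀ g : ℕ → ℕ, ∃ δ, ∀ m, ∃ i, m ≤ i ∧ g i < F δ i) →
  ∃ t : Ω → ℕ → ℕ, TData t

/-- EXF: the functions `f`. -/
def T_EXF : Prop := ∀ (Ω : Type) [LinearOrder Ω], OM Ω → ∀ (e : Ω → Ω → ℕ) (t : Ω → ℕ → ℕ),
  EData e → TData t → ∃ f : Ω → ℕ → ℕ, FData e t f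

/-- CLP: basic neighbourhoods are clopen. -/
def T_CLP : Prop := ∀ (Ω : Type) [LinearOrder Ω], ∀ (r : Ω → Ω → ℕ → ℕ) (s : Ω → ℕ → ℕ)
  (γ δ : Ω) (m : ℕ), (γ < δ ∨ ∀ η, ¬ η < δ) → (∀ ξ j, r δ ξ j = s ξ j) →
  (∀ ζ, ζ < δ → Coh r s ζ) → ∀ ζ k, LC r ζ k (Nb s γ δ m)

/-- RST: one step of the construction of the neighbourhood functions. -/
def T_RST : Prop := ∀ (Ω : Type) [LinearOrder Ω], OM Ω → ∀ (e : Ω → Ω → ℕ) (t f : Ω → ℕ → ℕ),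
  EData e → TData t → FData e t f → ∀ (δ : Ω) (r : Ω → Ω → ℕ → ℕ),
  (∀ δ', δ' < δ → RAt e t f δ' r (r δ')) → ∃ s, RAt e t f δ r s

/-- EXR: the neighbourhood functions exist. -/
def T_EXR : Prop := ∀ (Ω : Type) [LinearOrder Ω], OM Ω → ∀ (e : Ω → Ω → ℕ) (t f : Ω → ℕ → ℕ),
  EData e → TData t → FData e t f → ∃ r, RData e t f r

/-- GOO: all but countably many points of `A` are good. -/
def T_GOO : Prop := ∀ (Ω : Type) [LinearOrder Ω] (f : Ω → ℕ → ℕ) (A : Set Ω),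
  {β | β ∈ A ∧ ¬ Good f A β}.Countable

/-- RFL: below a point closed under `g` there are large reflecting points. -/
def T_RFL : Prop := ∀ (Ω : Type) [LinearOrder Ω], OM Ω → ∀ (e : Ω → Ω → ℕ) (t f : Ω → ℕ → ℕ),
  FData e t f → ∀ A : Set Ω, ∃ g : Ω → Ω, ∀ δ, (∀ α, α < δ → g α < δ) →
  ∀ γ β, γ < δ → β < δ → ∃ δ₀, γ < δ₀ ∧ β < δ₀ ∧ δ₀ < δ ∧ Rfl f A δ₀

/-- WIT: witnesses exist. -/
def T_WIT : Prop := ∀ (Ω : Type) [LinearOrder Ω], ∀ (e : Ω → Ω → ℕ) (t f : Ω → ℕ → ℕ),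
  EData e → FData e t f → ∀ (A : Set Ω) (γ β δ₀ : Ω) (Q : Finset Ω), Rfl f A δ₀ → Good f A β →
  γ < δ₀ → β < δ₀ → (∀ ζ ∈ Q, δ₀ ≤ ζ) → ∀ k, ∃ ξ, Wit e f A γ β δ₀ Q k ξ

/-- PSI: below a point closed under `g` the witnesses meet the unboundedness condition. -/
def T_PSI : Prop := ∀ (Ω : Type) [LinearOrder Ω], OM Ω → ∀ (e : Ω → Ω → ℕ) (t f : Ω → ℕ → ℕ),
  EData e → TData t → FData e t f → ∀ A : Set Ω, ∃ g : Ω → Ω, ∀ δ, (∀ α, α < δ → g α < δ) →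
  ∀ (γ β δ₀ : Ω) (Q : Finset Ω), Rfl f A δ₀ → Good f A β → γ < δ₀ → β < δ₀ → δ₀ < δ →
  (∀ ζ ∈ Q, δ₀ ≤ ζ) → (∀ ζ ∈ Q, ζ < δ) →
  ∃ x : ℕ → Ω, (∀ k, Wit e f A γ β δ₀ Q k (x k)) ∧ ∀ m, ∃ k, m ≤ k ∧ e δ₀ (x k) < t δ k

/-- FIX: the final step of capturing. -/
def T_FIX : Prop := ∀ (Ω : Type) [LinearOrder Ω], ∀ (e : Ω → Ω → ℕ) (t f : Ω → ℕ → ℕ)
  (r : Ω → Ω → ℕ → ℕ), Data e t f r → ∀ (A : Set Ω) (γ β δ₀ δ : Ω) (Q : Finset Ω) (x : ℕ → Ω),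
  γ < δ₀ → β < δ₀ → δ₀ < δ → δ₀ ∈ Q →
  (∀ ζ, δ₀ < ζ → ζ < δ → t δ (e δ ζ) < e δ δ₀ → ζ ∈ Q) →
  (∀ k, Wit e f A γ β δ₀ Q k (x k)) → (∀ m, ∃ k, m ≤ k ∧ e δ₀ (x k) < t δ k) →
  ∃ ξ ∈ A, γ < ξ ∧ ξ < δ ∧ cc f ξ δ = cc f β δ ∧ ∀ j, r δ ξ j = max j (cc f ξ δ)

/-- CAP: capturing at all points closed under some function. -/
def T_CAP : Prop := ∀ (Ω : Type) [LinearOrder Ω], OM Ω → ∀ (e : Ω → Ω → ℕ) (t f : Ω → ℕ → ℕ)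
  (r : Ω → Ω → ℕ → ℕ), Data e t f r → ∀ A : Set Ω, ∃ g : Ω → Ω,
  ∀ δ, (∀ α, α < δ → g α < δ) → Capt f r A δ

/-- UNB: points closed under `g` are unbounded. -/
def T_UNB : Prop := ∀ (Ω : Type) [LinearOrder Ω], OM Ω → ∀ (g : Ω → Ω) (S : Set Ω),
  S.Countable → ∃ δ, (∀ x ∈ S, x < δ) ∧ ∀ α, α < δ → g α < δ

/-- LEV: an uncountable closed set contains `S × {m}` for an uncountable `S`; two such sets at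
once (with the same `S`). -/
def T_LEV : Prop := ∀ (Ω : Type) [LinearOrder Ω], OM Ω → ∀ (e : Ω → Ω → ℕ) (t f : Ω → ℕ → ℕ)
  (r : Ω → Ω → ℕ → ℕ), Data e t f r → ∀ E₁ E₂ : Set (Ω × ℕ), IsOp r E₁ᶜ → IsOp r E₂ᶜ →
  ¬ E₁.Countable → ¬ E₂.Countable →
  ∃ (S : Set Ω) (m₁ m₂ : ℕ), ¬ S.Countable ∧ ∀ δ ∈ S, (δ, m₁) ∈ E₁ ∧ (δ, m₂) ∈ E₂

/-- MEET: two uncountable closed sets meet. -/
def T_MEET : Prop := ∀ (Ω : Type) [LinearOrder Ω], OM Ω → ∀ (e : Ω → Ω → ℕ) (t f : Ω → ℕ → ℕ)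
  (r : Ω → Ω → ℕ → ℕ), Data e t f r → ∀ E₁ E₂ : Set (Ω × ℕ), IsOp r E₁ᶜ → IsOp r E₂ᶜ →
  ¬ E₁.Countable → ¬ E₂.Countable → (E₁ ∩ E₂).Nonempty

/-- TOP: the topology. -/
def T_TOP : Prop := ∀ (Ω : Type) [LinearOrder Ω], OM Ω → ∀ (e : Ω → Ω → ℕ) (t f : Ω → ℕ → ℕ)
  (r : Ω → Ω → ℕ → ℕ), Data e t f r → ∃ τ : TopologicalSpace (Ω × ℕ),
  (∀ O : Set (Ω × ℕ), IsOpen[τ] O ↔ IsOp r O) ∧ @T2Space _ τ ∧ @FirstCountableTopology _ τ ∧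
  (∀ (x : Ω × ℕ) (O : Set (Ω × ℕ)), IsOpen[τ] O → x ∈ O →
    ∃ V : Set (Ω × ℕ), x ∈ V ∧ V ⊆ O ∧ IsOpen[τ] V ∧ IsOpen[τ] Vᶜ) ∧
  (∀ γ : Ω, IsOpen[τ] {p : Ω × ℕ | p.1 ≤ γ} ∧ IsOpen[τ] {p : Ω × ℕ | p.1 ≤ γ}ᶜ ∧
    {p : Ω × ℕ | p.1 ≤ γ}.Countable) ∧
  (∀ i l : ℕ, IsOpen[τ] {p : Ω × ℕ | i < p.2 ∨ l ≤ f p.1 i}ᶜ) ∧
  (∀ n : ℕ, IsOpen[τ] {p : Ω × ℕ | n ≤ p.2}ᶜ)

/-- NRM: normality criterion. -/
def T_NRM : Prop := ∀ (X : Type) [TopologicalSpace X] [T2Space X],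
  (∀ (x : X) (O : Set X), IsOpen O → x ∈ O → ∃ V : Set X, x ∈ V ∧ V ⊆ O ∧ IsClopen V) →
  (∀ S : Set X, S.Countable → ∃ Y : Set X, IsClopen Y ∧ Y.Countable ∧ S ⊆ Y) →
  (∀ E₁ E₂ : Set X, IsClosed E₁ → IsClosed E₂ → ¬ E₁.Countable → ¬ E₂.Countable →
    (E₁ ∩ E₂).Nonempty) → NormalSpace X

/-- FCT: functional countability criterion. -/
def T_FCT : Prop := ∀ (X : Type) [TopologicalSpace X],
  (∀ E₁ E₂ : Set X, IsClosed E₁ → IsClosed E₂ → ¬ E₁.Countable → ¬ E₂.Countable →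
    (E₁ ∩ E₂).Nonempty) → ∀ g : X → ℝ, Continuous g → (range g).Countable

/-- DWK: Dowker criterion. -/
def T_DWK : Prop := ∀ (X : Type) [TopologicalSpace X], Uncountable X →
  (∀ E₁ E₂ : Set X, IsClosed E₁ → IsClosed E₂ → ¬ E₁.Countable → ¬ E₂.Countable →
    (E₁ ∩ E₂).Nonempty) → ∀ D : ℕ → Set X, (∀ n, IsClosed (D n)) → (∀ n, ¬ (D n).Countable) →
  ∀ U : ℕ → Set X, (∀ n, IsOpen (U n)) → (∀ n, D n ⊆ U n) → (⋂ n, U n).Nonempty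

/-- OMX: the well ordered set of order type `omega_1`, and an unbounded family indexed by it. -/
def T_OMX : Prop := OM (Cardinal.aleph.{0} 1).ord.ToType ∧
  (¬ (∀ F : Set (ℕ → ℕ), Cardinal.mk F ≤ Cardinal.aleph 1 →
    ∃ g : ℕ → ℕ, ∀ f ∈ F, ∀ᶠ n in Filter.atTop, f n ≤ g n) →
  ∃ F : (Cardinal.aleph.{0} 1).ord.ToType → ℕ → ℕ,
    ∀ g : ℕ → ℕ, ∃ δ, ∀ m, ∃ i, m ≤ i ∧ g i < F δ i)

/-- FIN: the space for the case `b = omega_1`. -/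
def T_FIN : Prop := ¬ (∀ F : Set (ℕ → ℕ), Cardinal.mk F ≤ Cardinal.aleph 1 →
    ∃ g : ℕ → ℕ, ∀ f ∈ F, ∀ᶠ n in Filter.atTop, f n ≤ g n) →
  ∃ (X : Type) (_ : TopologicalSpace X), T2Space X ∧ NormalSpace X ∧ FirstCountableTopology X ∧
    (∀ x : X, ∃ V : Set X, x ∈ V ∧ IsOpen V ∧ V.Countable) ∧
    Cardinal.mk X = Cardinal.aleph 1 ∧
    (∀ f : X → ℝ, Continuous f → (Set.range f).Countable) ∧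
    (∃ F : ℕ → Set X, (∀ n, IsClosed (F n)) ∧
      ∀ D : Set X, D.Countable →
        ∃ S : Set ℕ, (⋂ n ∈ S, F n).Nonempty ∧ D ∩ ⋂ n ∈ S, F n = ∅) ∧
    ∃ D : ℕ → Set X, (∀ n, IsClosed (D n)) ∧ (∀ n, D (n + 1) ⊆ D n) ∧ (⋂ n, D n) = ∅ ∧
      ∀ U : ℕ → Set X, (∀ n, IsOpen (U n)) → (∀ n, D n ⊆ U n) → (⋂ n, U n).Nonempty

end Pool.Agent.FCB
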